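import Pool.Agent.P8H3.EF.Stm

/-!
# The Fourier transform of a polynomial
-/

set_option autoImplicit false

namespace Pool.Agent.P8H3.EF

open Finset Polynomial

section
variable {k : Type} [Field k]

lemma hasse_eval_top {G : k[X]} {m : ℕ} (hG : G.natDegree ≤ m) (r : k) :
    (hasseDeriv m G).eval r = G.coeff m := by
  have h1 : (hasseDeriv m G).natDegree < 1 := by
    have := natDegree_hasseDeriv_le G m
    omega
  rw [eval_eq_sum_range' h1, Finset.sum_range_one, hasseDeriv_coeff]
  simp

lemma hasse_eval_sub {G : k[X]} {m : ℕ} (hm : 1 ≤ m) (hG : G.natDegree ≤ m) (r : k) :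
    (hasseDeriv (m - 1) G).eval r = G.coeff (m - 1) + m * G.coeff m * r := by
  obtain ⟨n, rfl⟩ : ∃ n, m = n + 1 := ⟨m - 1, by omega⟩
  simp only [Nat.add_sub_cancel]
  have h1 : (hasseDeriv n G).natDegree < 2 := by
    have := natDegree_hasseDeriv_le G n
    omega
  rw [eval_eq_sum_range' h1, Finset.sum_range_succ, Finset.sum_range_one, hasseDeriv_coeff, hasseDeriv_coeff]
  have h2 : (1 + n).choose n = n + 1 := by
    rw [add_comm, Nat.choose_succ_self_right]
  rw [h2, add_comm 1 n]
  simp

/-- the backward difference -/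
noncomputable def bd (G : k[X]) : k[X] := G - taylor (-1) G

lemma bd_eval (G : k[X]) (x : k) : (bd G).eval x = G.eval x - G.eval (x - 1) := by
  unfold bd
  rw [eval_sub, taylor_eval, ← sub_eq_add_neg]

lemma bd_spec {G : k[X]} {m : ℕ} (hm : 1 ≤ m) (hG : G.natDegree ≤ m) :
    (bd G).natDegree ≤ m - 1 ∧ (bd G).coeff (m - 1) = m * G.coeff m := by
  constructor
  · rw [natDegree_le_iff_coeff_eq_zero]
    intro i hi
    unfold bd
    rw [coeff_sub, taylor_coeff]
    rw [hasse_eval_top (by omega), sub_self]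
  · unfold bd
    rw [coeff_sub, taylor_coeff, hasse_eval_sub hm hG]
    ring

lemma sum_parts (G : k[X]) (N : ℕ) (z : k) (hz : z ^ N = 1) :
    (z - 1) * ∑ a ∈ range N, G.eval (a : k) * z ^ a =
      - ∑ a ∈ range N, (bd G).eval (a : k) * z ^ a + (G.eval ((N : k) - 1) - G.eval (-1)) := by
  have h1 := Finset.sum_range_succ' (fun a : ℕ => G.eval ((a : k) - 1) * z ^ a) N
  rw [Finset.sum_range_succ, hz] at h1
  have h2 : ∑ a ∈ range N, G.eval (((a + 1 : ℕ) : k) - 1) * z ^ (a + 1) =
      z * ∑ a ∈ range N, G.eval (a : k) * z ^ a := by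
    rw [Finset.mul_sum]
    refine Finset.sum_congr rfl fun a _ => ?_
    push_cast
    rw [add_sub_cancel_right]
    ring
  rw [h2] at h1
  simp only [bd_eval, sub_mul, Finset.sum_sub_distrib]
  rw [Nat.cast_zero, zero_sub] at h1
  linear_combination -h1

lemma ft_aux {p : ℕ} [Fact p.Prime] [CharP k p] {N : ℕ} (hN : (N : k) ≠ 0) (m : ℕ) (hm : 1 ≤ m) (hmp : m < p) :
    ∀ G : k[X], G.natDegree ≤ m → G.coeff m ≠ 0 → ∃ P : k[X], P.natDegree ≤ m ∧ P.eval 1 ≠ 0 ∧
      ∀ z : k, z ^ N = 1 → z ≠ 1 → (z - 1) ^ m * ∑ a ∈ range N, G.eval (a : k) * z ^ a = P.eval z := by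
  induction m, hm using Nat.le_induction with
  | base =>
    intro G hG hc
    obtain ⟨h1, h2⟩ := bd_spec le_rfl hG
    refine ⟨C (G.eval ((N : k) - 1) - G.eval (-1)), ?_, ?_, ?_⟩
    · rw [natDegree_C]
      exact Nat.zero_le _
    · rw [eval_C]
      have h3 : G.natDegree < 2 := by omega
      rw [eval_eq_sum_range' h3, eval_eq_sum_range' h3, Finset.sum_range_succ, Finset.sum_range_one,
        Finset.sum_range_succ, Finset.sum_range_one]
      have h4 : G.coeff 0 * ((N : k) - 1) ^ 0 + G.coeff 1 * ((N : k) - 1) ^ 1 -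
          (G.coeff 0 * (-1) ^ 0 + G.coeff 1 * (-1) ^ 1) = G.coeff 1 * N := by ring
      rw [h4]
      exact mul_ne_zero hc hN
    · intro z hz hz1
      rw [pow_one, sum_parts G N z hz, eval_C]
      have h3 : (bd G) = C ((bd G).coeff 0) := eq_C_of_natDegree_le_zero (by simpa using h1)
      rw [h3]
      simp only [eval_C]
      rw [← Finset.mul_sum]
      have h4 : ∑ a ∈ range N, z ^ a = 0 := by
        have h5 := mul_geom_sum z N
        rw [hz, sub_self] at h5
        rcases mul_eq_zero.1 h5 with h6 | h6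
        · exact absurd (sub_eq_zero.1 h6) hz1
        · exact h6
      rw [h4]
      ring
  | succ m hm ih =>
    intro G hG hc
    obtain ⟨h1, h2⟩ := bd_spec (by omega) hG
    simp only [Nat.add_sub_cancel] at h1 h2
    have hm0 : ((m + 1 : ℕ) : k) ≠ 0 := by
      intro h
      have h3 := (CharP.cast_eq_zero_iff k p (m + 1)).1 h
      have := Nat.le_of_dvd (by omega) h3
      omega
    obtain ⟨P, hP1, hP2, hP3⟩ := ih (by omega) (bd G) h1 (by
      rw [h2]
      exact mul_ne_zero hm0 hc)
    refine ⟨-P + C (G.eval ((N : k) - 1) - G.eval (-1)) * (X - 1) ^ m, ?_, ?_, ?_⟩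
    · refine (natDegree_add_le _ _).trans (max_le ?_ ?_)
      · rw [natDegree_neg]
        omega
      · refine (natDegree_C_mul_le _ _).trans ?_
        refine natDegree_pow_le.trans ?_
        have h4 : (X - 1 : k[X]).natDegree ≤ 1 := by
          rw [← C_1]
          exact (natDegree_X_sub_C (1 : k)).le
        calc m * _ ≤ m * 1 := Nat.mul_le_mul_left m h4
          _ ≤ m + 1 := by omega
    · simp only [eval_add, eval_neg, eval_mul, eval_C, eval_pow, eval_sub, eval_X, eval_one, sub_self]
      rw [zero_pow (by omega), mul_zero, add_zero]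
      exact neg_ne_zero.2 hP2
    · intro z hz hz1
      rw [pow_succ, mul_assoc, sum_parts G N z hz]
      have h3 := hP3 z hz hz1
      simp only [eval_add, eval_neg, eval_mul, eval_C, eval_pow, eval_sub, eval_X, eval_one]
      linear_combination -h3

end

/-- FT -/
theorem ft : S_FT := by
  intro k _ p _ _ N m G hN hm hmp hG
  refine ft_aux (p := p) hN m hm hmp G hG.le ?_
  rw [← hG]
  have h1 : G ≠ 0 := by
    rintro rfl
    simp at hG
    omega
  exact leadingCoeff_ne_zero.2 h1

end Pool.Agent.P8H3.EF
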