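import Pool.Agent.P8H3.EF.Stm

/-!
# Gauss sums
-/

set_option autoImplicit false

namespace Pool.Agent.P8H3.EF

open Finset

lemma isPrimitive_inv {R : Type} [CommRing R] {N : ℕ} {χ : DirichletCharacter R N}
    (h : χ.IsPrimitive) : (χ⁻¹).IsPrimitive := by
  unfold DirichletCharacter.IsPrimitive at h ⊢
  have key : (χ⁻¹).conductorSet = χ.conductorSet := by
    ext d
    rw [DirichletCharacter.mem_conductorSet_iff, DirichletCharacter.mem_conductorSet_iff]
    constructor
    · rintro ⟨hd, χ₀, h0⟩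
      refine ⟨hd, χ₀⁻¹, ?_⟩
      rw [map_inv, ← h0, inv_inv]
    · rintro ⟨hd, χ₀, h0⟩
      refine ⟨hd, χ₀⁻¹, ?_⟩
      rw [map_inv, ← h0]
  unfold DirichletCharacter.conductor at h ⊢
  rw [key, h]

/-- GS -/
theorem gs : S_GS := by
  intro k _ N _ ζ χ f hζ hN hχ h
  have hχ' := isPrimitive_inv hχ
  set e := AddChar.zmodChar N hζ.pow_eq_one with he
  have h1 : ∀ a, ∑ b, χ⁻¹ b * ζ ^ (a * b).val = χ a * gaussSum χ⁻¹ e := by
    intro a
    have h2 := gaussSum_mulShift_of_isPrimitive e hχ' a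
    rw [inv_inv] at h2
    rw [← h2]
    unfold gaussSum
    refine Finset.sum_congr rfl fun b _ => ?_
    rw [AddChar.mulShift_apply, he, AddChar.zmodChar_apply]
  calc ∑ b, χ⁻¹ b * ∑ a, f a * ζ ^ (a * b).val = ∑ a, f a * ∑ b, χ⁻¹ b * ζ ^ (a * b).val := by
        simp only [Finset.mul_sum]
        rw [Finset.sum_comm]
        refine Finset.sum_congr rfl fun a _ => Finset.sum_congr rfl fun b _ => ?_
        ring
    _ = (∑ a, χ a * f a) * gaussSum χ⁻¹ e := by
        rw [Finset.sum_mul]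
        refine Finset.sum_congr rfl fun a _ => ?_
        rw [h1]
        ring
    _ = 0 := by rw [h, zero_mul]

end Pool.Agent.P8H3.EF
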