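import Pool.Agent.P8H3.EF.Rel1
import Pool.Agent.P8H3.EF.Gs
import Pool.Agent.P8H3.EF.Ft
import Pool.Agent.Y18.GX.Class
import Pool.Agent.Y18.GX.Bern

/-!
# The relations over the roots of unity for the Fourier transform of the Bernoulli polynomial
-/

set_option autoImplicit false

namespace Pool.Agent.P8H3.EF

open Finset Polynomial Pool.Agent.Y18.GX

lemma prim_of_ker {R S : Type} [CommRing R] [CommRing S] {N : ℕ} [NeZero N] {ψ : DirichletCharacter R N}
    {χ : DirichletCharacter S N} (h : ψ.IsPrimitive) (hker : ∀ u : (ZMod N)ˣ, χ u = 1 → ψ u = 1) :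
    χ.IsPrimitive := by
  have hd := χ.conductor_dvd_level
  have h1 := (DirichletCharacter.factorsThrough_iff_ker_unitsMap hd).1 χ.factorsThrough_conductor
  have h2 : ψ.FactorsThrough χ.conductor := by
    rw [DirichletCharacter.factorsThrough_iff_ker_unitsMap hd]
    intro u hu
    have h3 := h1 hu
    rw [MonoidHom.mem_ker] at h3 ⊢
    apply Units.ext
    rw [MulChar.coe_toUnitHom, Units.val_one]
    apply hker
    have h4 := congrArg Units.val h3
    rw [MulChar.coe_toUnitHom, Units.val_one] at h4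
    exact h4
  have h3 : ψ.conductor ≤ χ.conductor := Nat.sInf_le h2
  rw [h] at h3
  exact le_antisymm (Nat.le_of_dvd (Nat.pos_of_ne_zero (NeZero.ne N)) hd) h3

/-- sums over the units -/
lemma sum_units {N : ℕ} [NeZero N] {k : Type} [Field k] (F : ZMod N → k) (hF : ∀ x, ¬ IsUnit x → F x = 0) :
    ∑ x, F x = ∑ u : (ZMod N)ˣ, F u := by
  symm
  refine Finset.sum_of_injOn (fun u : (ZMod N)ˣ => (u : ZMod N)) (Units.val_injective.injOn) (by simp [Set.MapsTo])
    ?_ (fun _ _ => rfl)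
  intro x _ hx
  apply hF
  intro hu
  exact hx ⟨hu.unit, by simp, rfl⟩

/-- sums over the residues -/
lemma sum_val {N : ℕ} [NeZero N] {k : Type} [AddCommMonoid k] (F : ℕ → k) :
    ∑ x : ZMod N, F x.val = ∑ a ∈ range N, F a := by
  refine Finset.sum_nbij' (fun x : ZMod N => x.val) (fun a : ℕ => (a : ZMod N)) ?_ ?_ ?_ ?_ ?_
  · intro x _
    exact mem_range.2 (ZMod.val_lt x)
  · intro a _
    exact mem_univ _
  · intro x _
    exact ZMod.natCast_zmod_val x
  · intro a ha
    exact ZMod.val_cast_of_lt (mem_range.1 ha)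
  · intro x _
    rfl

section
variable {k : Type} [Field k] {p : ℕ} [Fact p.Prime] [CharP k p] {N m : ℕ} [NeZero N]

/-- the values of the polynomial -/
noncomputable def ff (k : Type) [Field k] (N m : ℕ) (a : ZMod N) : k := aeval ((a.val : k) / (N : ℕ)) (FF m)

/-- the Fourier transform -/
noncomputable def hh (m : ℕ) (ζ : k) (b : ZMod N) : k := ∑ a : ZMod N, ff k N m a * ζ ^ (a * b).val

omit [NeZero N] in
lemma pow_val {ζ : k} (hζ : ζ ^ N = 1) (a b : ZMod N) : ζ ^ (a * b).val = (ζ ^ b.val) ^ a.val := by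
  rw [ZMod.val_mul, ← pow_eq_pow_mod _ hζ, ← pow_mul, mul_comm]

lemma eq_one_of_pow {z : k} {i : ℕ} (h : z ^ p ^ i = 1) : z = 1 := by
  have h1 : (z - 1) ^ p ^ i = 0 := by
    rw [sub_pow_char_pow, h, one_pow, sub_self]
  exact sub_eq_zero.1 (pow_eq_zero_iff (pow_ne_zero _ (Fact.out : p.Prime).ne_zero) |>.1 h1)

/-- Gauss sums and Frobenius -/
lemma sum_frob {ζ : k} (hζ : IsPrimitiveRoot ζ N) (hNk : (N : k) ≠ 0) {χ : DirichletCharacter k N}
    (hχ : χ.IsPrimitive) (hsum : ∑ a ∈ range N, χ (a : ZMod N) * aeval ((a : k) / (N : ℕ)) (FF m) = 0)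
    (i : ℕ) : ∑ x : (ZMod N)ˣ, χ⁻¹ x ^ p ^ i * hh m ζ (x : ZMod N) = 0 := by
  have hp := (Fact.out : p.Prime)
  have hpi : p ^ i ≠ 0 := pow_ne_zero _ hp.ne_zero
  have h1 : ∑ a : ZMod N, χ a * ff k N m a = 0 := by
    rw [← hsum, ← sum_val (N := N)]
    refine Finset.sum_congr rfl fun a _ => ?_
    rw [ZMod.natCast_zmod_val]
    rfl
  have h2 : ∑ a : ZMod N, (χ ^ p ^ i) a * ff k N m a = 0 := by
    have h3 : (∑ a : ZMod N, χ a * ff k N m a) ^ p ^ i = 0 := by rw [h1, zero_pow hpi]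
    have h4 := map_sum (iterateFrobenius k p i) (fun a : ZMod N => χ a * ff k N m a) univ
    simp only [iterateFrobenius_def] at h4
    rw [← h3, h4]
    refine Finset.sum_congr rfl fun a _ => ?_
    rw [mul_pow, MulChar.pow_apply' χ hpi]
    congr 1
    exact (frob_fix (p := p) (FF m) a.val N i).symm
  have hprim : (χ ^ p ^ i).IsPrimitive := by
    refine prim_of_ker hχ ?_
    intro u hu
    rw [MulChar.pow_apply' χ hpi] at hu
    exact eq_one_of_pow (p := p) hu
  have h3 := gs k N ζ (χ ^ p ^ i) (ff k N m) hζ hNk hprim h2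
  rw [sum_units] at h3
  · rw [← h3]
    refine Finset.sum_congr rfl fun x _ => ?_
    rw [← inv_pow, MulChar.pow_apply' χ⁻¹ hpi]
    rfl
  · intro x hx
    rw [MulChar.map_nonunit _ hx, zero_mul]

/-- the Fourier transform and the polynomial -/
lemma hh_pol (hNk : (N : k) ≠ 0) (hm1 : 1 ≤ m) (hmp : m < p) {ζ : k} (hζ : ζ ^ N = 1) :
    ∃ P : k[X], P.natDegree ≤ m ∧ P.eval 1 ≠ 0 ∧ ∀ b : ZMod N, ζ ^ b.val ≠ 1 →
      (ζ ^ b.val - 1) ^ m * hh m ζ b = P.eval (ζ ^ b.val) := by
  have hp := (Fact.out : p.Prime)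
  set G : k[X] := ((FF m).map (Int.castRingHom k)).comp (C ((N : k)⁻¹) * X) with hG
  have hGc : G.coeff m = (m.factorial : k) * ((N : k)⁻¹) ^ m := by
    rw [hG, comp_C_mul_X_coeff, coeff_map, FF_coeff m hm1]
    simp
  have hGd : G.natDegree = m := by
    apply le_antisymm
    · rw [hG]
      refine natDegree_comp_le.trans ?_
      have h1 : (C ((N : k)⁻¹) * X : k[X]).natDegree ≤ 1 := (natDegree_C_mul_le _ _).trans natDegree_X_le
      calc _ ≤ m * 1 := Nat.mul_le_mul ((natDegree_map_le).trans (FF_natDegree m)) h1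
        _ = m := mul_one m
    · apply le_natDegree_of_ne_zero
      rw [hGc]
      apply mul_ne_zero
      · intro h
        have h1 := (CharP.cast_eq_zero_iff k p m.factorial).1 h
        have := (hp.dvd_factorial).1 h1
        omega
      · exact pow_ne_zero _ (inv_ne_zero hNk)
  have hGe : ∀ a : ℕ, G.eval (a : k) = aeval ((a : k) / (N : ℕ)) (FF m) := by
    intro a
    rw [hG, eval_comp, eval_mul, eval_C, eval_X, eval_map, aeval_def]
    congr 1
    rw [div_eq_inv_mul]
  obtain ⟨P, hP1, hP2, hP3⟩ := ft k p N m G hNk hm1 hmp hGd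
  refine ⟨P, hP1, hP2, fun b hb => ?_⟩
  rw [← hP3 _ (by rw [← pow_mul, mul_comm, pow_mul, hζ, one_pow]) hb, ← sum_val (N := N)]
  congr 1
  unfold hh
  refine Finset.sum_congr rfl fun a _ => ?_
  rw [pow_val hζ, hGe]
  rfl

/-- the parity of the Fourier transform -/
lemma hh_neg (hNk : (N : k) ≠ 0) {ζ : k} (hζ : ζ ^ N = 1) (b : ZMod N) (hb : ζ ^ b.val ≠ 1) :
    hh m ζ (-b) = (-1) ^ m * hh m ζ b - (((FF m).eval 1 : ℤ) : k) := by
  set F₁ : k := (((FF m).eval 1 : ℤ) : k) with hF₁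
  have hff : ∀ a : ZMod N, ff k N m (-a) = (-1) ^ m * ff k N m a + F₁ - if a = 0 then F₁ else 0 := by
    intro a
    unfold ff
    split_ifs with ha
    · subst ha
      have h0 : aeval (0 : k) (FF m) = 0 := by
        have h1 : (FF m).coeff 0 = 0 := by
          unfold FF
          rw [finsetSum_coeff]
          refine Finset.sum_eq_zero fun i hi => ?_
          rw [coeff_monomial, if_neg]
          have := mem_range.1 hi
          omega
        rw [aeval_def, eval₂_at_zero]
        rw [h1, map_zero]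
      simp only [neg_zero, ZMod.val_zero, Nat.cast_zero, zero_div]
      rw [h0]
      ring
    · have h1 : ((-a : ZMod N).val : k) / (N : ℕ) = 1 - (a.val : k) / (N : ℕ) := by
        rw [ZMod.neg_val, if_neg ha, Nat.cast_sub (ZMod.val_lt a).le]
        field_simp
      rw [h1, FF_aeval_refl, sub_zero]
  have h1 : hh m ζ (-b) = ∑ a : ZMod N, ff k N m (-a) * ζ ^ (a * b).val := by
    unfold hh
    refine Fintype.sum_equiv (Equiv.neg (ZMod N)) _ _ (fun a => ?_)
    rw [Equiv.neg_apply, neg_neg, neg_mul_comm]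
  have h2 : ∑ a : ZMod N, ζ ^ (a * b).val = 0 := by
    have h3 : ∀ a : ZMod N, ζ ^ (a * b).val = (ζ ^ b.val) ^ a.val := fun a => pow_val hζ a b
    simp only [h3]
    rw [sum_val (N := N) (fun a => (ζ ^ b.val) ^ a)]
    have h4 := mul_geom_sum (ζ ^ b.val) N
    have h5 : (ζ ^ b.val) ^ N = 1 := by rw [← pow_mul, mul_comm, pow_mul, hζ, one_pow]
    rw [h5, sub_self] at h4
    exact (mul_eq_zero.1 h4).resolve_left (sub_ne_zero.2 hb)
  rw [h1]
  simp only [hff, sub_mul, add_mul, Finset.sum_sub_distrib, Finset.sum_add_distrib, ite_mul, zero_mul]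
  rw [Finset.sum_ite_eq', ← Finset.mul_sum, h2]
  simp only [mem_univ, if_true, zero_mul, ZMod.val_zero, pow_zero, mul_one, mul_zero, add_zero]
  unfold hh
  rw [Finset.mul_sum]
  congr 1
  refine Finset.sum_congr rfl fun a _ => ?_
  ring

end

end Pool.Agent.P8H3.EF
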