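import Pool.Agent.P8H3.EF.Lat3
import Pool.Agent.P8H92.EF.Num1
import Pool.Agent.P8H92.EF.Num2

/-!
# The sizes
-/

set_option autoImplicit false

namespace Pool.Agent.P8H3.EF

open Finset

theorem size_data {p N : ℕ} (hp : p.Prime) (h3 : 3 ≤ p) (hN1 : 1 < N) (hpN : ¬ p ∣ N) (hpφ : ¬ p ∣ N.totient)
    (hbound : bound p N ≤ N) :
    ∃ (g : ℕ) (L : Finset ℕ), 1 ≤ g ∧ 4 ∣ p ^ g - 1 ∧
      (∀ ℓ ∈ N.primeFactors, ℓ ∣ p ^ g - 1 ∧ ℓ - 1 ∣ p ^ g - 1) ∧ L.Nonempty ∧ L ⊆ N.primeFactors ∧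
      ∀ m, 1 ≤ m → m < p → ∀ ℓ ∈ L, (m * R₀ N (p ^ g - 1) L * ∏ ℓ ∈ L, oo ℓ) ^ (oo ℓ).totient *
        ℓ ^ (p ^ g - 1).factorization ℓ < ℓ ^ N.factorization ℓ := by
  obtain ⟨g, hg1, hg4, hgℓ, hgs⟩ := Pool.Agent.P8H92.EF.num1 p N hp h3 hN1 hpN hpφ
  have hΛ : 0 < ∏ ℓ ∈ N.primeFactors, ℓ := Finset.prod_pos fun _ hℓ => (Nat.prime_of_mem_primeFactors hℓ).pos
  have hC : 1 ≤ Cst p N := by
    unfold Cst
    exact Nat.mul_pos (Nat.mul_pos (by norm_num) (pow_pos hΛ 3)) (pow_pos hp.pos _)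
  obtain ⟨L, hLne, hL, hLs⟩ := Pool.Agent.P8H92.EF.num2 N (Cst p N) hN1 hC hbound
  refine ⟨g, L, hg1, hg4, hgℓ, hLne, hL, ?_⟩
  intro m hm1 hmp ℓ hℓ
  set Q := p ^ g - 1 with hQ
  have hLp : ∀ ℓ ∈ L, ℓ.Prime := fun ℓ hℓ => Nat.prime_of_mem_primeFactors (hL hℓ)
  have hN0 : 0 < N₀ N L := by
    unfold N₀
    exact Finset.prod_pos fun ℓ hℓ => pow_pos (Nat.prime_of_mem_primeFactors (mem_sdiff.1 hℓ).1).pos _
  have hLprod : ∏ ℓ ∈ L, ℓ ^ Q.factorization ℓ ≤ ∏ ℓ ∈ N.primeFactors, ℓ ^ Q.factorization ℓ :=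
    Finset.prod_le_prod_of_subset_of_one_le' hL fun ℓ hℓ _ =>
      Nat.one_le_pow _ _ (Nat.prime_of_mem_primeFactors hℓ).pos
  have hoo : ∏ ℓ ∈ L, oo ℓ ≤ ∏ ℓ ∈ N.primeFactors, ℓ := by
    calc ∏ ℓ ∈ L, oo ℓ ≤ ∏ ℓ ∈ L, ℓ := by
          refine Finset.prod_le_prod' fun ℓ _ => ?_
          unfold oo
          split_ifs <;> omega
      _ ≤ _ := Finset.prod_le_prod_of_subset_of_one_le' hL fun ℓ hℓ _ => (Nat.prime_of_mem_primeFactors hℓ).pos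
  have hoop : 0 < ∏ ℓ ∈ L, oo ℓ := Finset.prod_pos fun ℓ hℓ => by
    have := oo_two_le (hLp ℓ hℓ)
    omega
  have hR0pos : 0 < ∏ ℓ ∈ L, ℓ ^ Q.factorization ℓ := Finset.prod_pos fun ℓ hℓ => pow_pos (hLp ℓ hℓ).pos _
  set H := m * R₀ N Q L * ∏ ℓ ∈ L, oo ℓ with hH
  have hH1 : 1 ≤ H := by
    rw [hH]
    unfold R₀
    exact Nat.mul_pos (Nat.mul_pos (by omega) (Nat.mul_pos hN0 hR0pos)) hoop
  have hHlt : H < Cst p N * N₀ N L := by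
    calc H ≤ m * (N₀ N L * (4 * (∏ ℓ ∈ N.primeFactors, ℓ) ^ 2 * p ^ (∑ ℓ ∈ N.primeFactors, ℓ))) *
          ∏ ℓ ∈ N.primeFactors, ℓ := by
          rw [hH]
          unfold R₀
          exact Nat.mul_le_mul (Nat.mul_le_mul_left _ (Nat.mul_le_mul_left _ (hLprod.trans hgs))) hoo
      _ = m * (4 * (∏ ℓ ∈ N.primeFactors, ℓ) ^ 3 * p ^ (∑ ℓ ∈ N.primeFactors, ℓ) * N₀ N L) := by ring
      _ < p * (4 * (∏ ℓ ∈ N.primeFactors, ℓ) ^ 3 * p ^ (∑ ℓ ∈ N.primeFactors, ℓ) * N₀ N L) := by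
          refine Nat.mul_lt_mul_of_pos_right hmp ?_
          exact Nat.mul_pos (Nat.mul_pos (Nat.mul_pos (by norm_num) (pow_pos hΛ 3)) (pow_pos hp.pos _)) hN0
      _ = Cst p N * N₀ N L := by
          unfold Cst
          rw [pow_add]
          ring
  have hℓH : ℓ ^ Q.factorization ℓ ≤ H := by
    have h1 : ℓ ^ Q.factorization ℓ ≤ ∏ ℓ ∈ L, ℓ ^ Q.factorization ℓ :=
      Nat.le_of_dvd hR0pos (Finset.dvd_prod_of_mem (fun ℓ => ℓ ^ Q.factorization ℓ) hℓ)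
    calc ℓ ^ Q.factorization ℓ ≤ ∏ ℓ ∈ L, ℓ ^ Q.factorization ℓ := h1
      _ ≤ N₀ N L * ∏ ℓ ∈ L, ℓ ^ Q.factorization ℓ := Nat.le_mul_of_pos_left _ hN0
      _ ≤ m * (N₀ N L * ∏ ℓ ∈ L, ℓ ^ Q.factorization ℓ) := Nat.le_mul_of_pos_left _ (by omega)
      _ ≤ _ := Nat.le_mul_of_pos_right _ hoop
  have htot : (oo ℓ).totient + 1 ≤ ℓ := by
    have h2 := (hLp ℓ hℓ).two_le
    unfold oo
    split_ifs with h
    · subst h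
      simp
    · have := Nat.totient_le (ℓ - 1)
      omega
  calc H ^ (oo ℓ).totient * ℓ ^ Q.factorization ℓ ≤ H ^ (oo ℓ).totient * H := Nat.mul_le_mul_left _ hℓH
    _ = H ^ ((oo ℓ).totient + 1) := (pow_succ _ _).symm
    _ ≤ H ^ ℓ := Nat.pow_le_pow_right hH1 htot
    _ < (Cst p N * N₀ N L) ^ ℓ := Nat.pow_lt_pow_left hHlt (hLp ℓ hℓ).ne_zero
    _ ≤ ℓ ^ N.factorization ℓ := hLs ℓ hℓ

end Pool.Agent.P8H3.EF
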