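import Pool.Agent.P8H3.EF.Core
import Pool.Agent.P8H3.EF.Siz
import Pool.Agent.P8H3.EF.Rel2
import Pool.Agent.P8H63.EF.TR
import Pool.Agent.P8H63.EF.KER
import Pool.Agent.P8H76.EF.NRM
import Pool.Agent.P8H76.EF.TEI

/-!
# The nonvanishing in characteristic `p`
-/

set_option autoImplicit false

namespace Pool.Agent.P8H3.EF

open Finset Polynomial Pool.Agent.Y18.GX

theorem nonvan {p : ℕ} (hp : p.Prime) (h3 : 3 ≤ p) {N m : ℕ} [NeZero N] (hN1 : 1 < N) (hpN : ¬ p ∣ N)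
    (hpφ : ¬ p ∣ N.totient) (hbound : bound p N ≤ N) (hm1 : 1 ≤ m) (hmp : m < p)
    (k : Type) [Field k] [CharP k p] [IsAlgClosed k] (χ : DirichletCharacter k N) (hχ : χ.IsPrimitive)
    (hpar : χ (-1) = (-1) ^ m) :
    ∑ a ∈ range N, χ (a : ZMod N) * aeval ((a : k) / (N : ℕ)) (FF m) ≠ 0 := by
  classical
  intro hsum
  have : Fact p.Prime := ⟨hp⟩
  have hN0 : 0 < N := by omega
  have hNk : (N : k) ≠ 0 := fun h => hpN ((CharP.cast_eq_zero_iff k p N).1 h)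
  have : NeZero (N : k) := ⟨hNk⟩
  obtain ⟨ζ, hζ⟩ := HasEnoughRootsOfUnity.exists_primitiveRoot k N
  obtain ⟨g, L, hg1, hg4, hgℓ, hLne, hL, hsize⟩ := size_data hp h3 hN1 hpN hpφ hbound
  set Q := p ^ g - 1 with hQ
  have hQ0 : 0 < Q := by
    have h1 : 3 ≤ p ^ g := h3.trans (Nat.le_self_pow (by omega) p)
    omega
  obtain ⟨T, _, _, V, _, _, t, θ, Kp, τ, c, hNeq, hA, hB, hC, h1Kp, hc1, hcK, hcv, hKp1, hKp2⟩ :=
    lat Pool.Agent.P8H76.EF.tei Pool.Agent.P8H76.EF.nrm (m := m) hN1 hm1 hQ0 hg4 hLne hL (hsize m hm1 hmp)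
  -- the relations
  have hrel : ∀ y : (ZMod N)ˣ, ∑ u ∈ univ.filter (fun u : (ZMod N)ˣ => u ^ Q = 1),
      χ⁻¹ u * hh m ζ ((u * y : (ZMod N)ˣ) : ZMod N) = 0 := by
    intro y
    refine rel1 Pool.Agent.P8H63.EF.tr Pool.Agent.P8H63.EF.ker hpN hg4 hgℓ χ⁻¹ (isPrimitive_inv hχ)
      (fun x : (ZMod N)ˣ => hh m ζ (x : ZMod N)) ?_ y
    intro j
    have h1 := sum_frob (p := p) hζ hNk hχ hsum (g * j)
    rw [pow_mul] at h1
    exact h1
  -- the polynomial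
  obtain ⟨P, hPd, hP1, hP⟩ := hh_pol (p := p) (m := m) hNk hm1 hmp hζ.pow_eq_one
  set F₁ : k := (((FF m).eval 1 : ℤ) : k) with hF₁
  have hne1 : ∀ u : (ZMod N)ˣ, ζ ^ ((u : ZMod N)).val ≠ 1 := by
    intro u h
    have h1 := hζ.dvd_of_pow_eq_one _ h
    have h2 : (u : ZMod N) = 0 := by
      rw [← ZMod.natCast_zmod_val (u : ZMod N)]
      exact (CharP.cast_eq_zero_iff (ZMod N) N _).2 h1
    have : Fact (1 < N) := ⟨hN1⟩
    exact u.ne_zero h2
  set P' : k[X] := C 2 * P - C ((-1) ^ m * F₁) * (X - 1) ^ m with hP'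
  have hP'd : P'.natDegree ≤ m := by
    rw [hP']
    refine (natDegree_sub_le _ _).trans (max_le ((natDegree_C_mul_le _ _).trans hPd) ?_)
    refine (natDegree_C_mul_le _ _).trans (natDegree_pow_le.trans ?_)
    have h4 : (X - 1 : k[X]).natDegree ≤ 1 := by
      rw [← C_1]
      exact (natDegree_X_sub_C (1 : k)).le
    calc m * _ ≤ m * 1 := Nat.mul_le_mul_left m h4
      _ = m := mul_one m
  have hP'1 : P'.eval 1 ≠ 0 := by
    rw [hP']
    simp only [eval_sub, eval_mul, eval_C, eval_pow, eval_X, eval_one, sub_self]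
    rw [zero_pow (by omega), mul_zero, sub_zero]
    refine mul_ne_zero ?_ hP1
    intro h
    have h1 : ((2 : ℕ) : k) = 0 := by exact_mod_cast h
    have h2 := (CharP.cast_eq_zero_iff k p 2).1 h1
    have := Nat.le_of_dvd (by norm_num) h2
    omega
  have hP'v : ∀ u : (ZMod N)ˣ, P'.eval (ζ ^ ((u : ZMod N)).val) / (ζ ^ ((u : ZMod N)).val - 1) ^ m =
      2 * hh m ζ (u : ZMod N) - (-1) ^ m * F₁ := by
    intro u
    have h1 := hP (u : ZMod N) (hne1 u)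
    have h2 : (ζ ^ ((u : ZMod N)).val - 1) ^ m ≠ 0 := pow_ne_zero _ (sub_ne_zero.2 (hne1 u))
    rw [div_eq_iff h2, hP']
    simp only [eval_sub, eval_mul, eval_C, eval_pow, eval_X, eval_one]
    rw [← h1]
    ring
  -- the half system
  have hχinv : χ⁻¹ (-1) = (-1) ^ m := by
    rw [MulChar.inv_apply_eq_inv', hpar]
    rcases neg_one_pow_eq_or k m with h | h <;> rw [h] <;> norm_num
  have hhalf : ∀ y : (ZMod N)ˣ, ∑ u ∈ Kp, χ⁻¹ u * (2 * hh m ζ ((u * y : (ZMod N)ˣ) : ZMod N) - (-1) ^ m * F₁) = 0 := by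
    intro y
    rw [← hrel y]
    set S := univ.filter (fun u : (ZMod N)ˣ => u ^ Q = 1) with hS
    set fu : (ZMod N)ˣ → k := fun u => χ⁻¹ u * hh m ζ ((u * y : (ZMod N)ˣ) : ZMod N) with hfu
    have hQev : Even Q := even_iff_two_dvd.2 (dvd_trans (by norm_num) hg4)
    have h1 : ∑ u ∈ S, fu u = ∑ u ∈ S.filter (fun u => u ∈ Kp), fu u + ∑ u ∈ S.filter (fun u => ¬ u ∈ Kp), fu u :=
      (Finset.sum_filter_add_sum_filter_not S (fun u => u ∈ Kp) fu).symm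
    have h2 : S.filter (fun u => u ∈ Kp) = Kp := by
      ext u
      rw [mem_filter]
      constructor
      · rintro ⟨_, h⟩
        exact h
      · intro h
        exact ⟨by rw [hS, mem_filter]; exact ⟨mem_univ _, hKp1 u h⟩, h⟩
    have h3 : ∑ u ∈ S.filter (fun u => ¬ u ∈ Kp), fu u = ∑ u ∈ Kp, fu (-u) := by
      symm
      refine Finset.sum_nbij' (fun u => -u) (fun u => -u) ?_ ?_ ?_ ?_ ?_
      · intro u hu
        rw [mem_filter, hS, mem_filter]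
        have h4 : (-u) ^ Q = 1 := by rw [hQev.neg_pow, hKp1 u hu]
        exact ⟨⟨mem_univ _, h4⟩, (hKp2 u (hKp1 u hu)).1 hu⟩
      · intro u hu
        rw [mem_filter, hS, mem_filter] at hu
        have h4 : (-u) ^ Q = 1 := by rw [hQev.neg_pow, hu.1.2]
        rw [hKp2 (-u) h4, neg_neg]
        exact hu.2
      · intro u _
        exact neg_neg u
      · intro u _
        exact neg_neg u
      · intro u _
        rfl
    rw [h1, h2, h3, ← Finset.sum_add_distrib]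
    refine Finset.sum_congr rfl fun u _ => ?_
    rw [hfu]
    simp only
    have h5 : χ⁻¹ ((-u : (ZMod N)ˣ) : ZMod N) = (-1) ^ m * χ⁻¹ (u : ZMod N) := by
      rw [Units.val_neg, ← neg_one_mul, map_mul, hχinv]
    have h6 : hh m ζ (((-u) * y : (ZMod N)ˣ) : ZMod N) =
        (-1) ^ m * hh m ζ ((u * y : (ZMod N)ˣ) : ZMod N) - F₁ := by
      rw [neg_mul, Units.val_neg]
      exact hh_neg hNk hζ.pow_eq_one _ (hne1 (u * y))
    rw [h5, h6]
    have h7 : ((-1 : k) ^ m) * (-1) ^ m = 1 := by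
      rw [← pow_add, ← two_mul, pow_mul]
      norm_num
    linear_combination (-(χ⁻¹ (u : ZMod N)) * hh m ζ ((u * y : (ZMod N)ˣ) : ZMod N)) * h7
  -- the elements `1 + R₀ s` are units
  have hprimes : ∀ ℓ ∈ N.primeFactors, ℓ ∣ R₀ N Q L := by
    intro ℓ hℓ
    have hℓp := Nat.prime_of_mem_primeFactors hℓ
    unfold R₀
    by_cases hℓL : ℓ ∈ L
    · refine Dvd.dvd.mul_left ?_ _
      have h1 : 1 ≤ Q.factorization ℓ := by
        rw [← Nat.Prime.dvd_iff_one_le_factorization hℓp hQ0.ne']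
        exact (hgℓ ℓ hℓ).1
      exact (dvd_pow_self ℓ (by omega)).trans (Finset.dvd_prod_of_mem (fun ℓ => ℓ ^ Q.factorization ℓ) hℓL)
    · refine Dvd.dvd.mul_right ?_ _
      have h1 : 1 ≤ N.factorization ℓ := by
        rw [← Nat.Prime.dvd_iff_one_le_factorization hℓp hN0.ne']
        exact Nat.dvd_of_mem_primeFactors hℓ
      unfold N₀
      exact (dvd_pow_self ℓ (by omega)).trans (Finset.dvd_prod_of_mem (fun ℓ => ℓ ^ N.factorization ℓ)
        (mem_sdiff.2 ⟨hℓ, hℓL⟩))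
  have hcop : ∀ s : ℕ, (1 + R₀ N Q L * s).Coprime N := by
    intro s
    rw [Nat.coprime_iff_gcd_eq_one]
    by_contra hne
    obtain ⟨ℓ, hℓp, hℓ⟩ := Nat.exists_prime_and_dvd hne
    have h1 := hℓ.trans (Nat.gcd_dvd_left _ _)
    have h2 := hℓ.trans (Nat.gcd_dvd_right _ _)
    have h3 := hprimes ℓ (Nat.mem_primeFactors.2 ⟨hℓp, h2, hN0.ne'⟩)
    have h4 : ℓ ∣ 1 := (Nat.dvd_add_left (h3.mul_right s)).1 h1
    exact hℓp.one_lt.ne' (Nat.dvd_one.1 h4)
  -- the powers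
  have hpow : ∀ v ∈ Kp, ∀ s : ℕ, ζ ^ ((t (τ v) + MM N Q L * c v) * (1 + R₀ N Q L * s)) =
      ζ ^ (((v * ZMod.unitOfCoprime _ (hcop s) : (ZMod N)ˣ) : ZMod N)).val := by
    intro v hv s
    rw [Units.val_mul, ZMod.coe_unitOfCoprime, ← hcv v hv, ← Nat.cast_mul, ZMod.val_natCast]
    exact pow_eq_pow_mod _ hζ.pow_eq_one
  -- the elimination
  refine core k N (R₀ N Q L) (MM N Q L) m ζ T {v // v ∈ Kp} V t θ (fun v => τ v) (fun v => c v)
    (fun v => χ⁻¹ (v.1 : ZMod N)) P' ⟨1, h1Kp⟩ hNeq hN0 hζ hNk hm1 hP'd hP'1 hA hB hC hc1 ?_ ?_ ?_ ?_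
  · simp
  · intro v hτv hne hd
    exact hcK v v.2 hτv (fun h => hne (Subtype.ext h)) hd
  · intro v s
    rw [hpow v v.2 s]
    exact hne1 _
  · intro s
    have h1 := hhalf (ZMod.unitOfCoprime _ (hcop s))
    rw [← Finset.sum_coe_sort Kp (fun u => χ⁻¹ (u : ZMod N) *
      (2 * hh m ζ ((u * ZMod.unitOfCoprime _ (hcop s) : (ZMod N)ˣ) : ZMod N) - (-1) ^ m * F₁))] at h1
    rw [← h1]
    refine Finset.sum_congr rfl fun v _ => ?_
    rw [hpow v v.2 s, hP'v]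

end Pool.Agent.P8H3.EF
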