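import Pool.Agent.P8H3.EF.Stm

/-!
# The elimination in the group ring of a vector space over `ℚ`
-/

set_option autoImplicit false

namespace Pool.Agent.P8H3.EF

open Finset

section
variable {k : Type} [Field k] {T : Type} [Fintype T] [DecidableEq T] {V : Type} [AddCommGroup V]

lemma aeval_single (θ : T → V) (Q : MvPolynomial T k) :
    MvPolynomial.aeval (fun i => (AddMonoidAlgebra.single (θ i) (1 : k))) Q =
      ∑ e ∈ Q.support, AddMonoidAlgebra.single (∑ i, e i • θ i) (Q.coeff e) := by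
  rw [MvPolynomial.aeval_def, MvPolynomial.eval₂_eq']
  refine Finset.sum_congr rfl fun e _ => ?_
  have h1 : ∀ s : Finset T, ∏ i ∈ s, (AddMonoidAlgebra.single (θ i) (1 : k)) ^ e i =
      AddMonoidAlgebra.single (∑ i ∈ s, e i • θ i) (1 : k) := by
    intro s
    induction s using Finset.induction_on with
    | empty => simp [AddMonoidAlgebra.one_def]
    | insert a s ha ih =>
      rw [Finset.prod_insert ha, Finset.sum_insert ha, ih, AddMonoidAlgebra.single_pow,
        AddMonoidAlgebra.single_mul_single, one_pow, one_mul]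
  rw [h1, AddMonoidAlgebra.coe_algebraMap, Function.comp_apply, AddMonoidAlgebra.single_mul_single]
  simp

/-- the elimination -/
lemma elim_zero {N R₀ M H : ℕ} {ζ : k} (hN : N = R₀ * M) (hN0 : 0 < N) (hζ : IsPrimitiveRoot ζ N)
    (hNk : (N : k) ≠ 0) (t : T → ℕ) (θ : T → V)
    (hA : ∀ a : T → ℤ, ∑ i, a i • θ i = 0 → (N : ℤ) ∣ ∑ i, a i * (t i : ℤ))
    (hB : ∀ a : T → ℤ, (∀ i, |a i| ≤ (H : ℤ)) → (M : ℤ) ∣ ∑ i, a i * (t i : ℤ) → ∑ i, a i • θ i = 0)
    (Q : MvPolynomial T k) (hdeg : ∀ i, Q.degreeOf i ≤ H)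
    (hQ : ∀ s : ℕ, MvPolynomial.aeval (fun i => ζ ^ (t i * (1 + R₀ * s))) Q = 0) :
    MvPolynomial.aeval (fun i => (AddMonoidAlgebra.single (θ i) (1 : k))) Q = 0 := by
  classical
  rw [aeval_single]
  apply AddMonoidAlgebra.ext
  apply Finsupp.ext
  intro w
  have hco : (∑ e ∈ Q.support, AddMonoidAlgebra.single (∑ i, e i • θ i) (Q.coeff e)).coeff w =
      ∑ e ∈ Q.support, if ∑ i, e i • θ i = w then Q.coeff e else 0 := by
    simp [Finsupp.single_apply]
  rw [hco]
  simp only [AddMonoidAlgebra.coeff_zero, Finsupp.coe_zero, Pi.zero_apply]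
  by_cases hex : ∃ e₀ ∈ Q.support, ∑ i, e₀ i • θ i = w
  swap
  · refine Finset.sum_eq_zero fun e he => ?_
    rw [if_neg]
    exact fun h => hex ⟨e, he, h⟩
  obtain ⟨e₀, he₀, hw⟩ := hex
  set E : (T →₀ ℕ) → ℕ := fun e => ∑ i, e i * t i with hE
  have hM0 : M ≠ 0 := by rintro rfl; omega
  have hR0 : R₀ ≠ 0 := by rintro rfl; omega
  -- the classes
  have hcls1 : ∀ e, ∑ i, e i • θ i = w → ζ ^ E e = ζ ^ E e₀ ∧ (ζ ^ R₀) ^ E e = (ζ ^ R₀) ^ E e₀ := by
    intro e he
    have h1 := hA (fun i => (e i : ℤ) - (e₀ i : ℤ)) (by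
      simp only [sub_smul, Finset.sum_sub_distrib, natCast_zsmul]
      rw [he, hw, sub_self])
    have h2 : ∑ i, ((e i : ℤ) - (e₀ i : ℤ)) * (t i : ℤ) = (E e : ℤ) - (E e₀ : ℤ) := by
      rw [hE]
      push_cast
      simp only [sub_mul, Finset.sum_sub_distrib]
    rw [h2] at h1
    have h3 : E e ≡ E e₀ [MOD N] := by
      rw [← Int.natCast_modEq_iff]
      exact (Int.modEq_iff_dvd.2 (by
        have := h1
        rwa [← dvd_neg, neg_sub] at this))
    have h4 : ζ ^ E e = ζ ^ E e₀ := by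
      rw [← Nat.mod_add_div (E e) N, ← Nat.mod_add_div (E e₀) N, pow_add, pow_add, pow_mul ζ N, pow_mul ζ N,
        hζ.pow_eq_one, one_pow, one_pow, h3]
    refine ⟨h4, ?_⟩
    rw [← pow_mul, ← pow_mul, mul_comm, pow_mul, h4, ← pow_mul, mul_comm]
  have hcls2 : ∀ e ∈ Q.support, (ζ ^ R₀) ^ E e = (ζ ^ R₀) ^ E e₀ → ∑ i, e i • θ i = w := by
    intro e he h
    have hprim : IsPrimitiveRoot (ζ ^ R₀) M := hζ.pow hN0 hN
    have h1 : (M : ℤ) ∣ (E e : ℤ) - (E e₀ : ℤ) := by
      rw [← pow_mul, ← pow_mul] at h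
      have h2 : E e ≡ E e₀ [MOD M] := by
        have h3 : R₀ * E e ≡ R₀ * E e₀ [MOD N] := by
          rw [hζ.eq_orderOf]
          exact (isOfFinOrder_iff_pow_eq_one.2 ⟨N, hN0, hζ.pow_eq_one⟩).pow_eq_pow_iff_modEq.1 h
        rw [hN] at h3
        exact Nat.ModEq.mul_left_cancel' hR0 h3
      have := (Nat.modEq_iff_dvd.1 h2.symm)
      exact this
    have h2 : ∑ i, ((e i : ℤ) - (e₀ i : ℤ)) * (t i : ℤ) = (E e : ℤ) - (E e₀ : ℤ) := by
      rw [hE]
      push_cast
      simp only [sub_mul, Finset.sum_sub_distrib]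
    have hle : ∀ e ∈ Q.support, ∀ i, e i ≤ H := fun e he i =>
      (MvPolynomial.degreeOf_le_iff.1 (hdeg i)) e he
    have h3 := hB (fun i => (e i : ℤ) - (e₀ i : ℤ)) (by
      intro i
      have h4 := hle e he i
      have h5 := hle e₀ he₀ i
      rw [abs_le]
      omega) (by rw [h2]; exact h1)
    simp only [sub_smul, Finset.sum_sub_distrib, natCast_zsmul] at h3
    rw [← hw]
    exact sub_eq_zero.1 h3
  have hζ0 : ζ ≠ 0 := hζ.ne_zero hN0.ne'
  -- orthogonality
  have hval : ∀ s : ℕ, ∑ e ∈ Q.support, Q.coeff e * ζ ^ (E e * (1 + R₀ * s)) = 0 := by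
    intro s
    have h1 := hQ s
    rw [MvPolynomial.aeval_def, MvPolynomial.eval₂_eq'] at h1
    rw [← h1]
    refine Finset.sum_congr rfl fun e _ => ?_
    rw [Algebra.algebraMap_self_apply]
    congr 1
    simp only [← pow_mul]
    rw [Finset.prod_pow_eq_pow_sum]
    congr 1
    rw [hE]
    simp only
    rw [Finset.sum_mul]
    refine Finset.sum_congr rfl fun i _ => ?_
    ring
  have hsum : ∑ s ∈ range M, ((ζ ^ E e₀)⁻¹ * ((ζ ^ R₀) ^ E e₀)⁻¹ ^ s) *
      ∑ e ∈ Q.support, Q.coeff e * ζ ^ (E e * (1 + R₀ * s)) = 0 := by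
    refine Finset.sum_eq_zero fun s _ => ?_
    rw [hval, mul_zero]
  have hrew : ∑ s ∈ range M, ((ζ ^ E e₀)⁻¹ * ((ζ ^ R₀) ^ E e₀)⁻¹ ^ s) *
      ∑ e ∈ Q.support, Q.coeff e * ζ ^ (E e * (1 + R₀ * s)) =
      ∑ e ∈ Q.support, Q.coeff e * (ζ ^ E e * (ζ ^ E e₀)⁻¹) *
        ∑ s ∈ range M, ((ζ ^ R₀) ^ E e * ((ζ ^ R₀) ^ E e₀)⁻¹) ^ s := by
    simp only [Finset.mul_sum]
    rw [Finset.sum_comm]
    refine Finset.sum_congr rfl fun e _ => Finset.sum_congr rfl fun s _ => ?_
    rw [mul_pow]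
    have h1 : ζ ^ (E e * (1 + R₀ * s)) = ζ ^ E e * ((ζ ^ R₀) ^ E e) ^ s := by
      rw [← pow_mul, ← pow_mul, ← pow_add]
      congr 1
      ring
    rw [h1]
    ring
  rw [hrew] at hsum
  have hgeo : ∀ e ∈ Q.support, Q.coeff e * (ζ ^ E e * (ζ ^ E e₀)⁻¹) *
        ∑ s ∈ range M, ((ζ ^ R₀) ^ E e * ((ζ ^ R₀) ^ E e₀)⁻¹) ^ s =
        (M : k) * if ∑ i, e i • θ i = w then Q.coeff e else 0 := by
    intro e he
    split_ifs with h
    · obtain ⟨h1, h2⟩ := hcls1 e h
      rw [h1, h2, mul_inv_cancel₀ (pow_ne_zero _ hζ0), mul_inv_cancel₀ (pow_ne_zero _ (pow_ne_zero _ hζ0))]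
      simp
      ring
    · have h1 : (ζ ^ R₀) ^ E e * ((ζ ^ R₀) ^ E e₀)⁻¹ ≠ 1 := by
        intro h2
        apply h
        apply hcls2 e he
        rw [mul_inv_eq_one₀ (pow_ne_zero _ (pow_ne_zero _ hζ0))] at h2
        exact h2
      have h2 : ((ζ ^ R₀) ^ E e * ((ζ ^ R₀) ^ E e₀)⁻¹) ^ M = 1 := by
        have h3 : (ζ ^ R₀) ^ M = 1 := by rw [← pow_mul, ← hN, hζ.pow_eq_one]
        rw [mul_pow, inv_pow, ← pow_mul (ζ ^ R₀), ← pow_mul (ζ ^ R₀), mul_comm (E e), mul_comm (E e₀),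
          pow_mul _ M, pow_mul _ M, h3]
        simp
      have h3 : ∑ s ∈ range M, ((ζ ^ R₀) ^ E e * ((ζ ^ R₀) ^ E e₀)⁻¹) ^ s = 0 := by
        have h4 := mul_geom_sum ((ζ ^ R₀) ^ E e * ((ζ ^ R₀) ^ E e₀)⁻¹) M
        rw [h2, sub_self] at h4
        rcases mul_eq_zero.1 h4 with h5 | h5
        · exact absurd (sub_eq_zero.1 h5) h1
        · exact h5
      rw [h3]
      simp
  rw [Finset.sum_congr rfl hgeo, ← Finset.mul_sum] at hsum
  have hMk : (M : k) ≠ 0 := by
    intro h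
    apply hNk
    rw [hN]
    push_cast
    rw [h, mul_zero]
  rcases mul_eq_zero.1 hsum with h | h
  · exact absurd h hMk
  · exact h


omit [Fintype T] in
lemma degreeOf_aeval_X (A : Polynomial k) (i j : T) :
    (Polynomial.aeval (MvPolynomial.X i : MvPolynomial T k) A).degreeOf j ≤ if j = i then A.natDegree else 0 := by
  rw [Polynomial.aeval_eq_sum_range]
  refine (MvPolynomial.degreeOf_sum_le _ _ _).trans (Finset.sup_le fun n hn => ?_)
  rw [MvPolynomial.smul_eq_C_mul]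
  refine (MvPolynomial.degreeOf_C_mul_le _ _ _).trans ?_
  split_ifs with h
  · subst h
    rw [MvPolynomial.degreeOf_X_self_pow]
    have := mem_range.1 hn
    omega
  · rw [MvPolynomial.degreeOf_X_pow_of_ne _ h]

/-- the polynomial of the elimination -/
noncomputable def big (R₀ m : ℕ) (A : T → Polynomial k) : MvPolynomial T k :=
  ∑ i, Polynomial.aeval (MvPolynomial.X i : MvPolynomial T k) (A i) *
    ∏ i' ∈ univ.erase i, ((MvPolynomial.X i' : MvPolynomial T k) ^ R₀ - 1) ^ m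

lemma aeval_big {B : Type} [CommRing B] [Algebra k B] (R₀ m : ℕ) (A : T → Polynomial k) (x : T → B) :
    MvPolynomial.aeval x (big R₀ m A) = ∑ i, Polynomial.aeval (x i) (A i) *
      ∏ i' ∈ univ.erase i, (x i' ^ R₀ - 1) ^ m := by
  unfold big
  rw [map_sum]
  refine Finset.sum_congr rfl fun i _ => ?_
  rw [map_mul, map_prod, ← Polynomial.aeval_algHom_apply, MvPolynomial.aeval_X]
  congr 1
  refine Finset.prod_congr rfl fun i' _ => ?_
  rw [map_pow, map_sub, map_pow, MvPolynomial.aeval_X, map_one]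

lemma degreeOf_big {R₀ m : ℕ} (A : T → Polynomial k) (hA : ∀ i, (A i).natDegree ≤ m * R₀) (j : T) :
    (big R₀ m A).degreeOf j ≤ m * R₀ := by
  unfold big
  refine (MvPolynomial.degreeOf_sum_le _ _ _).trans (Finset.sup_le fun i _ => ?_)
  refine (MvPolynomial.degreeOf_mul_le _ _ _).trans ?_
  have h1 : (∏ i' ∈ univ.erase i, ((MvPolynomial.X i' : MvPolynomial T k) ^ R₀ - 1) ^ m).degreeOf j ≤
      if j = i then 0 else m * R₀ := by
    refine (MvPolynomial.degreeOf_prod_le _ _ _).trans ?_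
    have h2 : ∀ i' ∈ univ.erase i, (((MvPolynomial.X i' : MvPolynomial T k) ^ R₀ - 1) ^ m).degreeOf j ≤
        if j = i' then m * R₀ else 0 := by
      intro i' _
      refine (MvPolynomial.degreeOf_pow_le _ _ _).trans ?_
      have h3 : ((MvPolynomial.X i' : MvPolynomial T k) ^ R₀ - 1).degreeOf j ≤ if j = i' then R₀ else 0 := by
        refine (MvPolynomial.degreeOf_sub_le _ _ _).trans ?_
        rw [MvPolynomial.degreeOf_one, max_le_iff]
        refine ⟨?_, Nat.zero_le _⟩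
        split_ifs with h
        · subst h
          rw [MvPolynomial.degreeOf_X_self_pow]
        · rw [MvPolynomial.degreeOf_X_pow_of_ne _ h]
      refine (Nat.mul_le_mul_left m h3).trans ?_
      split_ifs <;> simp
    refine (Finset.sum_le_sum h2).trans ?_
    rw [Finset.sum_ite_eq]
    split_ifs with h3 h4 h4
    · subst h4
      simp at h3
    · exact le_rfl
    · exact le_rfl
    · exact Nat.zero_le _
  refine (Nat.add_le_add (degreeOf_aeval_X (A i) i j) h1).trans ?_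
  split_ifs
  · simpa using hA i
  · simp

end

/-- CORE -/
theorem core : S_CORE := by
  intro k _ N R₀ M m ζ T K _ _ _ V _ _ t θ τ c κ P u₀ hN hN0 hζ hNk hm hPd hP1 hA hB hC hc0 hκ0 hcK hD hsum
  classical
  have hM0 : M ≠ 0 := by rintro rfl; omega
  have hR0 : R₀ ≠ 0 := by rintro rfl; omega
  have hR0k : (R₀ : k) ≠ 0 := by
    intro h
    apply hNk
    rw [hN]
    push_cast
    rw [h, zero_mul]
  set ξ := ζ ^ M with hξ
  have hξp : IsPrimitiveRoot ξ R₀ := hζ.pow hN0 (by rw [hN, mul_comm])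
  -- the polynomials
  set A : T → Polynomial k := fun i => ∑ v ∈ univ.filter (fun v => τ v = i),
    Polynomial.C (κ v) * P.comp (Polynomial.C (ξ ^ c v) * Polynomial.X) *
      (∑ j ∈ range R₀, (Polynomial.C (ξ ^ c v) * Polynomial.X) ^ j) ^ m with hAdef
  have hAev : ∀ i x, (A i).eval x = ∑ v ∈ univ.filter (fun v => τ v = i),
      κ v * P.eval (ξ ^ c v * x) * (∑ j ∈ range R₀, (ξ ^ c v * x) ^ j) ^ m := by
    intro i x
    rw [hAdef]
    simp only
    rw [Polynomial.eval_finsetSum]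
    refine Finset.sum_congr rfl fun v _ => ?_
    simp [Polynomial.eval_finsetSum, Polynomial.eval_comp]
  have hAdeg : ∀ i, (A i).natDegree ≤ m * R₀ := by
    intro i
    rw [hAdef]
    refine Polynomial.natDegree_sum_le_of_forall_le _ _ fun v _ => ?_
    have h1 : (Polynomial.C (ξ ^ c v) * Polynomial.X : Polynomial k).natDegree ≤ 1 :=
      (Polynomial.natDegree_C_mul_le _ _).trans Polynomial.natDegree_X_le
    refine Polynomial.natDegree_mul_le.trans ?_
    have h2 : (Polynomial.C (κ v) * P.comp (Polynomial.C (ξ ^ c v) * Polynomial.X)).natDegree ≤ m := by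
      refine (Polynomial.natDegree_C_mul_le _ _).trans ?_
      refine Polynomial.natDegree_comp_le.trans ?_
      calc _ ≤ m * 1 := Nat.mul_le_mul hPd h1
        _ = m := mul_one m
    have h3 : ((∑ j ∈ range R₀, (Polynomial.C (ξ ^ c v) * Polynomial.X) ^ j) ^ m : Polynomial k).natDegree ≤
        m * (R₀ - 1) := by
      refine Polynomial.natDegree_pow_le.trans (Nat.mul_le_mul_left m ?_)
      refine Polynomial.natDegree_sum_le_of_forall_le _ _ fun j hj => ?_
      refine Polynomial.natDegree_pow_le.trans ?_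
      have := mem_range.1 hj
      calc j * _ ≤ j * 1 := Nat.mul_le_mul_left j h1
        _ ≤ R₀ - 1 := by omega
    calc _ ≤ m + m * (R₀ - 1) := Nat.add_le_add h2 h3
      _ = m * R₀ := by
        obtain ⟨r, rfl⟩ := Nat.exists_eq_succ_of_ne_zero hR0
        simp
        ring
  -- the relation in `k`
  have hrel : ∀ s : ℕ, MvPolynomial.aeval (fun i => ζ ^ (t i * (1 + R₀ * s))) (big R₀ m A) = 0 := by
    intro s
    rw [aeval_big]
    set x : T → k := fun i => ζ ^ (t i * (1 + R₀ * s)) with hx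
    have hz : ∀ v, ζ ^ ((t (τ v) + M * c v) * (1 + R₀ * s)) = ξ ^ c v * x (τ v) := by
      intro v
      rw [hx, hξ]
      simp only
      have h1 : ζ ^ (M * c v * (R₀ * s)) = 1 := by
        have h2 : M * c v * (R₀ * s) = N * (c v * s) := by rw [hN]; ring
        rw [h2, pow_mul, hζ.pow_eq_one, one_pow]
      have h3 : (t (τ v) + M * c v) * (1 + R₀ * s) = M * c v * (R₀ * s) + (M * c v + t (τ v) * (1 + R₀ * s)) := by
        ring
      rw [h3, pow_add, h1, one_mul, pow_add, pow_mul]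
    have hAx : ∀ i, Polynomial.aeval (x i) (A i) = (x i ^ R₀ - 1) ^ m *
        ∑ v ∈ univ.filter (fun v => τ v = i),
          κ v * (P.eval (ζ ^ ((t (τ v) + M * c v) * (1 + R₀ * s))) /
      (ζ ^ ((t (τ v) + M * c v) * (1 + R₀ * s)) - 1) ^ m) := by
      intro i
      rw [Polynomial.coe_aeval_eq_eval, hAev, Finset.mul_sum]
      refine Finset.sum_congr rfl fun v hv => ?_
      rw [mem_filter] at hv
      have hvi := hv.2
      have h1 := hD v s
      rw [hz, hvi] at h1 ⊢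
      have h2 : ξ ^ c v * x i - 1 ≠ 0 := sub_ne_zero.2 h1
      have h3 : (ξ ^ c v * x i) ^ R₀ = x i ^ R₀ := by
        rw [mul_pow, ← pow_mul, mul_comm (c v), pow_mul, hξp.pow_eq_one, one_pow, one_mul]
      have h4 : x i ^ R₀ - 1 = (ξ ^ c v * x i - 1) * ∑ j ∈ range R₀, (ξ ^ c v * x i) ^ j := by
        rw [← h3, mul_geom_sum]
      rw [h4, mul_pow]
      field_simp
    have hprod : ∀ i, (x i ^ R₀ - 1) ^ m * ∏ i' ∈ univ.erase i, (x i' ^ R₀ - 1) ^ m =
        ∏ i' : T, (x i' ^ R₀ - 1) ^ m := fun i =>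
      Finset.mul_prod_erase univ (fun i' => (x i' ^ R₀ - 1) ^ m) (mem_univ i)
    have h5 : ∀ i, Polynomial.aeval (x i) (A i) * ∏ i' ∈ univ.erase i, (x i' ^ R₀ - 1) ^ m =
        (∏ i' : T, (x i' ^ R₀ - 1) ^ m) * ∑ v ∈ univ.filter (fun v => τ v = i),
          κ v * (P.eval (ζ ^ ((t (τ v) + M * c v) * (1 + R₀ * s))) /
      (ζ ^ ((t (τ v) + M * c v) * (1 + R₀ * s)) - 1) ^ m) := by
      intro i
      rw [hAx, ← hprod i]
      ring
    rw [Finset.sum_congr rfl fun i _ => h5 i, ← Finset.mul_sum]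
    have h6 := Finset.sum_fiberwise (univ : Finset K) τ (fun v =>
      κ v * (P.eval (ζ ^ ((t (τ v) + M * c v) * (1 + R₀ * s))) /
      (ζ ^ ((t (τ v) + M * c v) * (1 + R₀ * s)) - 1) ^ m))
    rw [h6, hsum s, mul_zero]
  -- the relation in the group ring
  have hgr := elim_zero hN hN0 hζ hNk t θ hA hB (big R₀ m A) (degreeOf_big A hAdeg) hrel
  -- the quotient
  set i₀ := τ u₀ with hi₀
  set W := Submodule.span ℚ {θ i₀} with hW
  let π : V →+ V ⧸ W := (Submodule.mkQ W).toAddMonoidHom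
  let φ : AddMonoidAlgebra k V →ₐ[k] AddMonoidAlgebra k (V ⧸ W) := AddMonoidAlgebra.mapDomainAlgHom k k π
  have h1 : MvPolynomial.aeval (fun i => (AddMonoidAlgebra.single (π (θ i)) (1 : k))) (big R₀ m A) = 0 := by
    have h2 := congrArg φ hgr
    rw [map_zero, MvPolynomial.comp_aeval_apply] at h2
    rw [← h2]
    congr 2
    funext i
    simp [φ]
  rw [aeval_big] at h1
  have hπ0 : π (θ i₀) = 0 := by
    have h2 : θ i₀ ∈ W := Submodule.mem_span_singleton_self _
    exact (Submodule.Quotient.mk_eq_zero W).2 h2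
  have hsing : (AddMonoidAlgebra.single (π (θ i₀)) (1 : k)) = 1 := by
    rw [hπ0, AddMonoidAlgebra.one_def]
  rw [Finset.sum_eq_single i₀ (by
    intro i _ hi
    rw [Finset.prod_eq_zero (i := i₀) (mem_erase.2 ⟨Ne.symm hi, mem_univ _⟩), mul_zero]
    rw [hsing, one_pow, sub_self, zero_pow (by omega)]) (by
    intro h
    exact absurd (mem_univ _) h)] at h1
  rw [hsing] at h1
  have hA1 : Polynomial.aeval (1 : AddMonoidAlgebra k (V ⧸ W)) (A i₀) =
      AddMonoidAlgebra.single 0 (κ u₀ * P.eval 1 * (R₀ : k) ^ m) := by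
    have h2 : Polynomial.aeval (1 : AddMonoidAlgebra k (V ⧸ W)) (A i₀) =
        algebraMap k (AddMonoidAlgebra k (V ⧸ W)) ((A i₀).eval 1) := by
      have h3 := Polynomial.aeval_algebraMap_apply (AddMonoidAlgebra k (V ⧸ W)) (1 : k) (A i₀)
      rw [map_one, Polynomial.coe_aeval_eq_eval] at h3
      exact h3
    rw [h2, hAev, AddMonoidAlgebra.coe_algebraMap, Function.comp_apply, Algebra.algebraMap_self_apply]
    congr 1
    rw [Finset.sum_eq_single u₀]
    · rw [hc0]
      simp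
    · intro v hv hne
      rw [mem_filter] at hv
      have h4 := hcK v hv.2 hne
      have h5 : ξ ^ c v ≠ 1 := fun h6 => h4 (hξp.dvd_of_pow_eq_one _ h6)
      have h6 : ∑ j ∈ range R₀, (ξ ^ c v) ^ j = 0 := by
        have h7 := mul_geom_sum (ξ ^ c v) R₀
        have h9 : (ξ ^ c v) ^ R₀ = 1 := by
          rw [← pow_mul, mul_comm (c v), pow_mul, hξp.pow_eq_one, one_pow]
        rw [h9, sub_self] at h7
        rcases mul_eq_zero.1 h7 with h8 | h8
        · exact absurd (sub_eq_zero.1 h8) h5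
        · exact h8
      rw [mul_one, h6, zero_pow (by omega), mul_zero]
    · intro h
      have h3 : u₀ ∈ univ.filter (fun v => τ v = i₀) := by
        rw [mem_filter]
        exact ⟨mem_univ _, hi₀.symm⟩
      exact absurd h3 h
  have hA1' : Polynomial.aeval (1 : AddMonoidAlgebra k (V ⧸ W)) (A i₀) ≠ 0 := by
    rw [hA1]
    intro h
    have h2 := congrArg (fun x => x.coeff 0) h
    simp at h2
    rcases h2 with (h2 | h2) | h2
    · exact hκ0 h2
    · exact hP1 h2
    · exact hR0k h2.1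
  have hfac : ∀ i ∈ univ.erase i₀, ((AddMonoidAlgebra.single (π (θ i)) (1 : k)) ^ R₀ - 1) ^ m ≠ 0 := by
    intro i hi
    apply pow_ne_zero
    rw [AddMonoidAlgebra.single_pow, one_pow, sub_ne_zero, AddMonoidAlgebra.one_def]
    intro h
    have h2 := congrArg (fun x => x.coeff 0) h
    simp only [AddMonoidAlgebra.coeff_single, Finsupp.single_apply] at h2
    rw [if_pos trivial] at h2
    split_ifs at h2 with h3
    · have h4 : π (θ i) = 0 := by
        have h5 : (R₀ : ℚ) • π (θ i) = 0 := by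
          rw [Nat.cast_smul_eq_nsmul]
          exact h3
        rcases smul_eq_zero.1 h5 with h6 | h6
        · exact absurd (by exact_mod_cast h6) hR0
        · exact h6
      exact hC i (mem_erase.1 hi).1 ((Submodule.Quotient.mk_eq_zero W).1 h4)
    · exact zero_ne_one h2
  rcases mul_eq_zero.1 h1 with h2 | h2
  · exact hA1' h2
  · rw [Finset.prod_eq_zero_iff] at h2
    obtain ⟨i, hi, h3⟩ := h2
    exact hfac i hi h3

end Pool.Agent.P8H3.EF
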