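import Pool.Agent.P8H3.EF.Asm
import Pool.Agent.P8H3.GB.Red
import Pool.Agent.P8H3.GB.Val

/-!
# The effective theorem of Friedman
-/

set_option autoImplicit false

namespace Pool.Agent.P8H3.EF

open Finset Polynomial Pool.Agent.Y18.GX Pool.Agent.P8H3.GB

/-- a primitive character is not `1` at `p` if `N` is large -/
lemma euler_ne {p : ℕ} (hp : p.Prime) (h3 : 3 ≤ p) {N : ℕ} [NeZero N] (hN1 : 1 < N) (hpN : ¬ p ∣ N)
    (hpφ : ¬ p ∣ N.totient) (hbound : bound p N ≤ N) (ψ : DirichletCharacter ℂ N) (hprim : ψ.IsPrimitive) :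
    ψ (p : ZMod N) ≠ 1 := by
  intro h
  have hN0 : N ≠ 0 := by omega
  obtain ⟨g, L, hg1, hg4, hgℓ, ⟨ℓ, hℓ⟩, hL, hsize⟩ := size_data hp h3 hN1 hpN hpφ hbound
  have hcop : p.Coprime N := (Nat.Prime.coprime_iff_not_dvd hp).2 hpN
  set w : (ZMod N)ˣ := ZMod.unitOfCoprime p hcop ^ g with hw
  have hwv : (w : ZMod N) = ((p ^ g : ℕ) : ZMod N) := by
    rw [hw, Units.val_pow_eq_pow_val, ZMod.coe_unitOfCoprime]
    push_cast
    rfl
  have hval : (w : ZMod N).val ≡ p ^ g [MOD N] := by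
    rw [← ZMod.natCast_eq_natCast_iff, ZMod.natCast_zmod_val, hwv]
  have hone : 1 ≤ p ^ g := Nat.one_le_pow _ _ hp.pos
  have hmod : ∀ d, d ∣ p ^ g - 1 → p ^ g ≡ 1 [MOD d] := fun d hd => ((Nat.modEq_iff_dvd' hone).2 hd).symm
  have h1 : w = 1 := by
    refine Pool.Agent.P8H63.EF.ker N ℂ ψ hprim w ?_ ?_ ?_
    · intro ℓ hℓp hℓN
      exact (hval.of_dvd hℓN).trans (hmod ℓ (hgℓ ℓ (Nat.mem_primeFactors.2 ⟨hℓp, hℓN, hN0⟩)).1)
    · intro h4
      exact (hval.of_dvd h4).trans (hmod 4 hg4)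
    · rw [hwv]
      push_cast
      rw [map_pow, h, one_pow]
  have h2 : N ∣ p ^ g - 1 := by
    have h4 : p ^ g ≡ 1 [MOD N] := by
      rw [← ZMod.natCast_eq_natCast_iff, ← hwv, h1, Units.val_one, Nat.cast_one]
    exact (Nat.modEq_iff_dvd' hone).1 h4.symm
  have hQ0 : p ^ g - 1 ≠ 0 := by
    have h5 : 3 ≤ p ^ g := h3.trans (Nat.le_self_pow (by omega) p)
    omega
  have h4 := (Nat.factorization_le_iff_dvd hN0 hQ0).2 h2 ℓ
  have h5 := hsize 1 le_rfl (by omega) ℓ hℓ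
  have hℓp := Nat.prime_of_mem_primeFactors (hL hℓ)
  have h6 : ℓ ^ N.factorization ℓ ≤ ℓ ^ (p ^ g - 1).factorization ℓ := Nat.pow_le_pow_right hℓp.pos h4
  have h7 : 0 < (1 * R₀ N (p ^ g - 1) L * ∏ ℓ ∈ L, oo ℓ) ^ (oo ℓ).totient := by
    apply pow_pos
    unfold R₀ N₀
    refine Nat.mul_pos (Nat.mul_pos one_pos (Nat.mul_pos ?_ ?_)) ?_
    · exact Finset.prod_pos fun ℓ hℓ => pow_pos (Nat.prime_of_mem_primeFactors (mem_sdiff.1 hℓ).1).pos _
    · exact Finset.prod_pos fun ℓ hℓ => pow_pos (Nat.prime_of_mem_primeFactors (hL hℓ)).pos _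
    · exact Finset.prod_pos fun ℓ hℓ => by
        have := oo_two_le (Nat.prime_of_mem_primeFactors (hL hℓ))
        omega
  have h8 := Nat.le_mul_of_pos_left (ℓ ^ (p ^ g - 1).factorization ℓ) h7
  omega

/-- the main theorem -/
theorem effective {p : ℕ} (hp : p.Prime) (h3 : 3 ≤ p) {N m : ℕ} (hN1 : 1 < N) (hpN : ¬ p ∣ N)
    (hpφ : ¬ p ∣ N.totient) (hbound : bound p N ≤ N) (hm1 : 1 ≤ m) (hmp : m ≤ p - 1)
    (ψ : DirichletCharacter ℂ N) (hprim : ψ.IsPrimitive) (hpar : ψ (-1) = (-1) ^ m) :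
    IsUnitAt p (lValue p m ψ) := by
  have : NeZero N := ⟨by omega⟩
  have hne : ψ ≠ 1 := by
    intro h
    have h1 : ψ.conductor = N := hprim
    rw [h, DirichletCharacter.conductor_one] at h1
    omega
  rw [lValue_eq (by omega)]
  refine unit_gen' hp ψ hpN hpφ hpar hm1 (by omega) (fun _ => euler_ne hp h3 hN1 hpN hpφ hbound ψ hprim) ?_
    (sum_char (by omega) ψ hne)
  intro k _ _ _ χ hχ hχpar
  refine nonvan hp h3 hN1 hpN hpφ hbound hm1 (by omega) k χ ?_ hχpar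
  exact prim_of_ker hprim fun u hu => hχ _ hu

end Pool.Agent.P8H3.EF
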