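import Pool.Agent.P8H3.EF.Stm

/-!
# The lattice of the relations: the polynomials
-/

set_option autoImplicit false

namespace Pool.Agent.P8H3.EF

open Finset Polynomial

lemma oo_two_le {ℓ : ℕ} (h : ℓ.Prime) : 2 ≤ oo ℓ := by
  unfold oo
  have := h.two_le
  split_ifs <;> omega

lemma oo_even {ℓ : ℕ} (h : ℓ.Prime) : Even (oo ℓ) := by
  unfold oo
  split_ifs with h2
  · exact even_two
  · exact h.even_sub_one h2

section
variable (L : Finset ℕ) (ℓs : L)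

/-- the index set -/
abbrev TT : Type := {j : (ℓ : L) → Fin (oo ℓ) // (j ℓs : ℕ) < oo ℓs / 2}

/-- the generic combination -/
noncomputable def EE (ℓ : L) (a : TT L ℓs → ℤ) : ℤ[X] := ∑ j, a j • (X ^ (j.1 ℓ : ℕ) : ℤ[X])

/-- the vectors -/
noncomputable def th (j : TT L ℓs) : L → ℚ[X] := fun ℓ =>
  ((X ^ (j.1 ℓ : ℕ) : ℤ[X]) %ₘ cyclotomic (oo ℓ) ℤ).map (Int.castRingHom ℚ)

lemma th_sum (a : TT L ℓs → ℤ) (ℓ : L) :
    (∑ j, a j • th L ℓs j) ℓ = ((EE L ℓs ℓ a) %ₘ cyclotomic (oo ℓ) ℤ).map (Int.castRingHom ℚ) := by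
  have h1 : (EE L ℓs ℓ a) %ₘ cyclotomic (oo ℓ) ℤ =
      ∑ j, a j • ((X ^ (j.1 ℓ : ℕ) : ℤ[X]) %ₘ cyclotomic (oo ℓ) ℤ) := by
    unfold EE
    have h2 := map_sum (modByMonicHom (cyclotomic (oo ℓ) ℤ)) (fun j : TT L ℓs => a j • (X ^ (j.1 ℓ : ℕ) : ℤ[X])) univ
    simp only [map_zsmul] at h2
    exact h2
  rw [h1, Polynomial.map_sum, Finset.sum_apply]
  refine Finset.sum_congr rfl fun j _ => ?_
  unfold th
  simp only [Pi.smul_apply, zsmul_eq_mul, Polynomial.map_mul, Polynomial.map_intCast]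

lemma th_zero_iff (a : TT L ℓs → ℤ) :
    ∑ j, a j • th L ℓs j = 0 ↔ ∀ ℓ : L, cyclotomic (oo ℓ) ℤ ∣ EE L ℓs ℓ a := by
  constructor
  · intro h ℓ
    have h1 := congrFun h ℓ
    rw [th_sum, Pi.zero_apply, Polynomial.map_eq_zero_iff (RingHom.injective_int _)] at h1
    exact (modByMonic_eq_zero_iff_dvd (cyclotomic.monic _ _)).1 h1
  · intro h
    funext ℓ
    rw [th_sum, Pi.zero_apply, Polynomial.map_eq_zero_iff (RingHom.injective_int _)]
    exact (modByMonic_eq_zero_iff_dvd (cyclotomic.monic _ _)).2 (h ℓ)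

/-- evaluation of the generic combination -/
lemma EE_aeval (ℓ : L) (a : TT L ℓs → ℤ) {R : Type} [CommRing R] (x : R) :
    aeval x (EE L ℓs ℓ a) = ∑ j, (a j : R) * x ^ (j.1 ℓ : ℕ) := by
  unfold EE
  simp

/-- the coefficient of the remainder -/
lemma coeff_zero_of {a : TT L ℓs → ℤ} (h : ∑ j, a j • th L ℓs j = 0) :
    ∑ j, a j * ((X ^ (j.1 ℓs : ℕ) : ℤ[X]) %ₘ cyclotomic (oo ℓs) ℤ).coeff 0 = 0 := by
  have h1 := (th_zero_iff L ℓs a).1 h ℓs
  have h2 := (modByMonic_eq_zero_iff_dvd (cyclotomic.monic _ _)).2 h1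
  have h3 := congrArg (fun P : ℤ[X] => P.coeff 0) h2
  simp only [coeff_zero] at h3
  rw [← h3]
  unfold EE
  have h4 := map_sum (modByMonicHom (cyclotomic (oo ℓs) ℤ)) (fun j : TT L ℓs => a j • (X ^ (j.1 ℓs : ℕ) : ℤ[X])) univ
  simp only [map_zsmul] at h4
  change (modByMonicHom (cyclotomic (oo ℓs) ℤ)) (∑ j, a j • (X ^ (j.1 ℓs : ℕ) : ℤ[X])) = _ at h4
  change _ = ((modByMonicHom (cyclotomic (oo ℓs) ℤ)) (∑ j, a j • (X ^ (j.1 ℓs : ℕ) : ℤ[X]))).coeff 0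
  rw [h4, finsetSum_coeff]
  refine Finset.sum_congr rfl fun j _ => ?_
  rw [coeff_smul, smul_eq_mul]
  rfl

/-- the size of the coefficients -/
lemma EE_size (ℓ : L) (a : TT L ℓs → ℤ) {B : ℕ} (ha : ∀ j, |a j| ≤ (B : ℤ)) :
    ∑ i ∈ (EE L ℓs ℓ a).support, |(EE L ℓs ℓ a).coeff i| ≤ ((B * Fintype.card (TT L ℓs) : ℕ) : ℤ) := by
  classical
  have h1 : ∀ i, (EE L ℓs ℓ a).coeff i = ∑ j, if (j.1 ℓ : ℕ) = i then a j else 0 := by
    intro i
    unfold EE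
    rw [finsetSum_coeff]
    refine Finset.sum_congr rfl fun j _ => ?_
    rw [coeff_smul, coeff_X_pow]
    simp only [smul_eq_mul, mul_ite, mul_one, mul_zero]
    simp only [eq_comm]
  calc ∑ i ∈ (EE L ℓs ℓ a).support, |(EE L ℓs ℓ a).coeff i|
      ≤ ∑ i ∈ (EE L ℓs ℓ a).support, ∑ j, if (j.1 ℓ : ℕ) = i then |a j| else 0 := by
        refine Finset.sum_le_sum fun i _ => ?_
        rw [h1]
        refine (Finset.abs_sum_le_sum_abs _ _).trans (Finset.sum_le_sum fun j _ => ?_)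
        split_ifs <;> simp
    _ = ∑ j, ∑ i ∈ (EE L ℓs ℓ a).support, if (j.1 ℓ : ℕ) = i then |a j| else 0 := Finset.sum_comm
    _ ≤ ∑ _j : TT L ℓs, (B : ℤ) := by
        refine Finset.sum_le_sum fun j _ => ?_
        rw [Finset.sum_ite_eq]
        split_ifs
        · exact ha j
        · exact Int.natCast_nonneg _
    _ = _ := by
        rw [Finset.sum_const, card_univ]
        push_cast
        simp
        ring

end

end Pool.Agent.P8H3.EF
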