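import Pool.Agent.P8H3.EF.Lat1

/-!
# The lattice of the relations: independence, and the congruences
-/

set_option autoImplicit false

namespace Pool.Agent.P8H3.EF

open Finset Polynomial

section
variable (L : Finset ℕ) (ℓs : L)

lemma th_root (hL : ∀ ℓ ∈ L, ℓ.Prime) {j₀ j : TT L ℓs} (h0 : ∀ ℓ, (j₀.1 ℓ : ℕ) = 0) {r : ℚ}
    (hr : r • th L ℓs j₀ = th L ℓs j) (ℓ : L) {α : ℂ} (hα : IsPrimitiveRoot α (oo ℓ)) :
    α ^ (j.1 ℓ : ℕ) = (r : ℂ) := by
  have h2 := oo_two_le (hL ℓ ℓ.2)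
  have hroot : aeval α (cyclotomic (oo ℓ) ℤ) = 0 := by
    have h3 := hα.isRoot_cyclotomic (by omega)
    rw [aeval_def, eval₂_eq_eval_map, algebraMap_int_eq, map_cyclotomic]
    exact h3
  have h4 : ∀ P : ℤ[X], aeval α ((P %ₘ cyclotomic (oo ℓ) ℤ).map (Int.castRingHom ℚ)) = aeval α P := by
    intro P
    rw [← algebraMap_int_eq, aeval_map_algebraMap]
    exact aeval_modByMonic_eq_self_of_root hroot
  have h5 := congrArg (aeval α) (congrFun hr ℓ)
  unfold th at h5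
  rw [Pi.smul_apply, map_smul, h4, h4, h0] at h5
  simp only [pow_zero, map_one, map_pow, aeval_X] at h5
  rw [← h5]
  simp [Algebra.smul_def]

lemma th_not_mem (hL : ∀ ℓ ∈ L, ℓ.Prime) {j₀ j : TT L ℓs} (h0 : ∀ ℓ, (j₀.1 ℓ : ℕ) = 0) (hne : j ≠ j₀) :
    th L ℓs j ∉ Submodule.span ℚ {th L ℓs j₀} := by
  intro hmem
  obtain ⟨r, hr⟩ := Submodule.mem_span_singleton.1 hmem
  have hex : ∀ ℓ : L, ∃ α : ℂ, IsPrimitiveRoot α (oo ℓ) := fun ℓ =>
    ⟨_, Complex.isPrimitiveRoot_exp _ (by have := oo_two_le (hL ℓ ℓ.2); omega)⟩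
  choose α hα using hex
  have hroot := fun ℓ => th_root L ℓs hL h0 hr ℓ (hα ℓ)
  have hs2 := oo_two_le (hL ℓs ℓs.2)
  have hpm : r = 1 ∨ r = -1 := by
    have h1 : ((r ^ oo ℓs : ℚ) : ℂ) = 1 := by
      push_cast
      rw [← hroot ℓs, ← pow_mul, mul_comm, pow_mul, (hα ℓs).pow_eq_one, one_pow]
    have h2 : r ^ oo ℓs = 1 := by exact_mod_cast h1
    rcases (pow_eq_one_iff_cases).1 h2 with h3 | h3 | h3
    · omega
    · exact Or.inl h3
    · exact Or.inr h3.1
  have hs0 : (j.1 ℓs : ℕ) = 0 := by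
    have h1 : α ℓs ^ (2 * (j.1 ℓs : ℕ)) = 1 := by
      rw [mul_comm, pow_mul, hroot]
      rcases hpm with rfl | rfl <;> norm_num
    have h2 := (hα ℓs).dvd_of_pow_eq_one _ h1
    have h3 := j.2
    rcases Nat.eq_zero_or_pos (j.1 ℓs : ℕ) with h4 | h4
    · exact h4
    · have := Nat.le_of_dvd (by omega) h2
      omega
  have hr1 : r = 1 := by
    have h1 := hroot ℓs
    rw [hs0, pow_zero] at h1
    exact_mod_cast h1.symm
  apply hne
  apply Subtype.ext
  funext ℓ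
  apply Fin.ext
  rw [h0]
  have h1 := hroot ℓ
  rw [hr1, Rat.cast_one] at h1
  have h2 := (hα ℓ).dvd_of_pow_eq_one _ h1
  have h3 := (j.1 ℓ).2
  exact Nat.eq_zero_of_dvd_of_lt h2 h3

end

/-- divisibility by `N` -/
lemma dvd_iff_forall {N : ℕ} (hN : N ≠ 0) (x : ℤ) :
    (N : ℤ) ∣ x ↔ ∀ ℓ ∈ N.primeFactors, ((ℓ ^ N.factorization ℓ : ℕ) : ℤ) ∣ x := by
  constructor
  · intro h ℓ _
    refine dvd_trans ?_ h
    exact_mod_cast Nat.ordProj_dvd N ℓ
  · intro h
    have h1 : N = ∏ ℓ ∈ N.primeFactors, ℓ ^ N.factorization ℓ := by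
      conv_lhs => rw [← Nat.prod_factorization_pow_eq_self hN]
      rfl
    rw [h1]
    push_cast
    apply Finset.prod_dvd_of_coprime
    · intro a ha b hb hab
      have ha' := Nat.prime_of_mem_primeFactors ha
      have hb' := Nat.prime_of_mem_primeFactors hb
      have h2 := Nat.coprime_pow_primes (N.factorization a) (N.factorization b) ha' hb' hab
      have h3 := Nat.isCoprime_iff_coprime.2 h2
      simp only [Function.onFun]
      push_cast at h3
      exact h3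
    · intro ℓ hℓ
      have := h ℓ hℓ
      push_cast at this
      exact this

/-- the chinese remainder theorem -/
lemma exists_crt {N : ℕ} (c : ℕ → ℕ) :
    ∃ x : ℕ, ∀ ℓ ∈ N.primeFactors, x ≡ c ℓ [MOD ℓ ^ N.factorization ℓ] := by
  obtain ⟨x, hx⟩ := Nat.chineseRemainderOfFinset c (fun ℓ => ℓ ^ N.factorization ℓ) N.primeFactors
    (fun ℓ hℓ => pow_ne_zero _ (Nat.prime_of_mem_primeFactors hℓ).ne_zero) (by
      intro a ha b hb hab
      exact Nat.coprime_pow_primes _ _ (Nat.prime_of_mem_primeFactors ha) (Nat.prime_of_mem_primeFactors hb) hab)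
  exact ⟨x, hx⟩

end Pool.Agent.P8H3.EF
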