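import Pool.Agent.P8H3.EF.Lat2

/-!
# The lattice data for the elimination
-/

set_option autoImplicit false

namespace Pool.Agent.P8H3.EF

open Finset Polynomial

/-- the modulus of the relations -/
def MM (N Q : ℕ) (L : Finset ℕ) : ℕ := ∏ ℓ ∈ L, ℓ ^ (N.factorization ℓ - Q.factorization ℓ)

lemma N_eq {N Q : ℕ} {L : Finset ℕ} (hN : N ≠ 0) (hL : L ⊆ N.primeFactors)
    (h : ∀ ℓ ∈ L, Q.factorization ℓ ≤ N.factorization ℓ) : N = R₀ N Q L * MM N Q L := by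
  have h1 : N = ∏ ℓ ∈ N.primeFactors, ℓ ^ N.factorization ℓ := by
    conv_lhs => rw [← Nat.prod_factorization_pow_eq_self hN]
    rfl
  unfold R₀ MM N₀
  rw [mul_assoc, ← Finset.prod_mul_distrib]
  have h2 : ∏ ℓ ∈ L, (ℓ ^ Q.factorization ℓ * ℓ ^ (N.factorization ℓ - Q.factorization ℓ)) =
      ∏ ℓ ∈ L, ℓ ^ N.factorization ℓ := by
    refine Finset.prod_congr rfl fun ℓ hℓ => ?_
    rw [← pow_add, Nat.add_sub_cancel' (h ℓ hℓ)]
  rw [h2, Finset.prod_sdiff hL]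
  exact h1

lemma MM_dvd_iff {N Q : ℕ} {L : Finset ℕ} (hL : ∀ ℓ ∈ L, ℓ.Prime) (x : ℤ) :
    (MM N Q L : ℤ) ∣ x ↔ ∀ ℓ ∈ L, ((ℓ ^ (N.factorization ℓ - Q.factorization ℓ) : ℕ) : ℤ) ∣ x := by
  constructor
  · intro h ℓ hℓ
    refine dvd_trans ?_ h
    have h1 : ℓ ^ (N.factorization ℓ - Q.factorization ℓ) ∣ MM N Q L := Finset.dvd_prod_of_mem _ hℓ
    exact_mod_cast h1
  · intro h
    unfold MM
    push_cast
    apply Finset.prod_dvd_of_coprime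
    · intro a ha b hb hab
      have h2 := Nat.coprime_pow_primes (N.factorization a - Q.factorization a)
        (N.factorization b - Q.factorization b) (hL a ha) (hL b hb) hab
      have h3 := Nat.isCoprime_iff_coprime.2 h2
      simp only [Function.onFun]
      push_cast at h3
      exact h3
    · intro ℓ hℓ
      have := h ℓ hℓ
      push_cast at this
      exact this

/-- the values of the polynomials under reduction -/
lemma aeval_castHom {a b : ℕ} (h : b ∣ a) (x : ℕ) (P : ℤ[X]) (hP : aeval (x : ZMod a) P = 0) :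
    aeval (x : ZMod b) P = 0 := by
  have h1 := Polynomial.aeval_algHom_apply (ZMod.castHom h (ZMod b)).toIntAlgHom (x : ZMod a) P
  have h2 : (ZMod.castHom h (ZMod b)).toIntAlgHom (x : ZMod a) = (x : ZMod b) := by
    exact map_natCast (ZMod.castHom h (ZMod b)) x
  rw [h2, hP, map_zero] at h1
  exact h1

lemma card_TT_le (L : Finset ℕ) (ℓs : L) : Fintype.card (TT L ℓs) ≤ ∏ ℓ ∈ L, oo ℓ := by
  refine (Fintype.card_subtype_le _).trans ?_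
  rw [Fintype.card_pi]
  simp only [Fintype.card_fin]
  rw [Finset.prod_coe_sort L (fun ℓ => oo ℓ)]

/-- reduction of a unit -/
lemma cast_neg_unit {N b : ℕ} [NeZero N] (h : b ∣ N) (u : (ZMod N)ˣ) :
    (((-u : (ZMod N)ˣ) : ZMod N).val : ZMod b) = -(((u : ZMod N)).val : ZMod b) := by
  have h1 : ∀ x : ZMod N, ((x.val : ℕ) : ZMod b) = ZMod.castHom h (ZMod b) x := by
    intro x
    rw [ZMod.castHom_apply, ZMod.natCast_val]
  rw [h1, h1, Units.val_neg, map_neg]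

theorem lat (hTEI : S_TEI) (hNRM : S_NRM) {N Q m : ℕ} [NeZero N] {L : Finset ℕ} (hN1 : 1 < N) (hm : 1 ≤ m)
    (hQ : 0 < Q) (hQ4 : 4 ∣ Q) (hLne : L.Nonempty)
    (hL : L ⊆ N.primeFactors)
    (hsize : ∀ ℓ ∈ L, (m * R₀ N Q L * ∏ ℓ ∈ L, oo ℓ) ^ (oo ℓ).totient * ℓ ^ Q.factorization ℓ <
      ℓ ^ N.factorization ℓ) :
    ∃ (T : Type) (_ : Fintype T) (_ : DecidableEq T) (V : Type) (_ : AddCommGroup V) (_ : Module ℚ V)
      (t : T → ℕ) (θ : T → V) (Kp : Finset (ZMod N)ˣ) (τ : (ZMod N)ˣ → T) (c : (ZMod N)ˣ → ℕ),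
      N = R₀ N Q L * MM N Q L ∧
      (∀ a : T → ℤ, ∑ i, a i • θ i = 0 → (N : ℤ) ∣ ∑ i, a i * (t i : ℤ)) ∧
      (∀ a : T → ℤ, (∀ i, |a i| ≤ ((m * R₀ N Q L : ℕ) : ℤ)) → (MM N Q L : ℤ) ∣ ∑ i, a i * (t i : ℤ) →
        ∑ i, a i • θ i = 0) ∧
      (∀ i, i ≠ τ 1 → θ i ∉ Submodule.span ℚ {θ (τ 1)}) ∧
      1 ∈ Kp ∧ c 1 = 0 ∧ (∀ v ∈ Kp, τ v = τ 1 → v ≠ 1 → ¬ R₀ N Q L ∣ c v) ∧
      (∀ v ∈ Kp, ((t (τ v) + MM N Q L * c v : ℕ) : ZMod N) = v) ∧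
      (∀ u ∈ Kp, u ^ Q = 1) ∧ (∀ u, u ^ Q = 1 → (u ∈ Kp ↔ -u ∉ Kp)) := by
  classical
  have hN0 : N ≠ 0 := by omega
  obtain ⟨ℓs', hℓs'⟩ := hLne
  set ℓs : L := ⟨ℓs', hℓs'⟩ with hℓs
  have hLp : ∀ ℓ ∈ L, ℓ.Prime := fun ℓ hℓ => Nat.prime_of_mem_primeFactors (hL hℓ)
  have hoo2 : ∀ ℓ : L, 2 ≤ oo ℓ := fun ℓ => oo_two_le (hLp ℓ ℓ.2)
  -- sizes
  have hR0 : 0 < R₀ N Q L := by
    unfold R₀ N₀
    apply Nat.mul_pos
    · exact Finset.prod_pos fun ℓ hℓ => pow_pos (Nat.prime_of_mem_primeFactors (mem_sdiff.1 hℓ).1).pos _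
    · exact Finset.prod_pos fun ℓ hℓ => pow_pos (hLp ℓ hℓ).pos _
  have hoop : 0 < ∏ ℓ ∈ L, oo ℓ := Finset.prod_pos fun ℓ hℓ => by
    have := oo_two_le (hLp ℓ hℓ)
    omega
  have hH : 0 < m * R₀ N Q L * ∏ ℓ ∈ L, oo ℓ := Nat.mul_pos (Nat.mul_pos (by omega) hR0) hoop
  have hlt : ∀ ℓ ∈ L, Q.factorization ℓ < N.factorization ℓ := by
    intro ℓ hℓ
    have h1 := hsize ℓ hℓ
    have h2 : ℓ ^ Q.factorization ℓ < ℓ ^ N.factorization ℓ := by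
      refine lt_of_le_of_lt ?_ h1
      exact Nat.le_mul_of_pos_left _ (pow_pos hH _)
    exact (Nat.pow_lt_pow_iff_right (hLp ℓ hℓ).one_lt).1 h2
  have htwo : ∀ ℓ ∈ L, ℓ = 2 → 2 ≤ N.factorization ℓ - Q.factorization ℓ := by
    intro ℓ hℓ h2
    have h1 := hsize ℓ hℓ
    subst h2
    have h3 : 2 ≤ Q.factorization 2 := by
      rw [← Nat.Prime.pow_dvd_iff_le_factorization Nat.prime_two hQ.ne']
      exact hQ4
    have h4 : 2 ^ Q.factorization 2 ∣ R₀ N Q L := by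
      unfold R₀
      exact Dvd.dvd.mul_left (Finset.dvd_prod_of_mem (fun ℓ => ℓ ^ Q.factorization ℓ) hℓ) _
    have h5 : 4 ≤ R₀ N Q L := by
      calc 4 = 2 ^ 2 := rfl
        _ ≤ 2 ^ Q.factorization 2 := Nat.pow_le_pow_right (by norm_num) h3
        _ ≤ R₀ N Q L := Nat.le_of_dvd hR0 h4
    have h6 : (oo 2).totient = 1 := by
      unfold oo
      simp
    rw [h6, pow_one] at h1
    have h7 : 4 ≤ m * R₀ N Q L * ∏ ℓ ∈ L, oo ℓ := by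
      calc 4 ≤ R₀ N Q L := h5
        _ ≤ m * R₀ N Q L := Nat.le_mul_of_pos_left _ (by omega)
        _ ≤ _ := Nat.le_mul_of_pos_right _ hoop
    have h8 : 2 ^ (Q.factorization 2 + 2) < 2 ^ N.factorization 2 := by
      refine lt_of_le_of_lt ?_ h1
      rw [pow_add, mul_comm]
      exact Nat.mul_le_mul_right _ h7
    have h9 := (Nat.pow_lt_pow_iff_right (by norm_num : 1 < 2)).1 h8
    omega
  have hNeq : N = R₀ N Q L * MM N Q L := N_eq hN0 hL fun ℓ hℓ => (hlt ℓ hℓ).le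
  have hM0 : 0 < MM N Q L := Nat.pos_of_ne_zero (by rintro h; rw [h] at hNeq; omega)
  have hMN : MM N Q L ∣ N := ⟨R₀ N Q L, by rw [mul_comm]; exact hNeq⟩
  -- the roots of unity
  have hex : ∀ ℓ : L, ∃ g : ℕ, aeval (g : ZMod ((ℓ : ℕ) ^ N.factorization ℓ)) (cyclotomic (oo ℓ) ℤ) = 0 ∧
    g ^ (oo ℓ / 2) + 1 ≡ 0 [MOD (ℓ : ℕ) ^ N.factorization ℓ] ∧ g ^ oo ℓ ≡ 1 [MOD (ℓ : ℕ) ^ N.factorization ℓ] ∧
    (∀ n e u : ℕ, n < N.factorization ℓ → Even e → ¬ (ℓ : ℕ) ^ (n + 1) ∣ e → u.Coprime ℓ →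
      u ^ e ≡ 1 [MOD (ℓ : ℕ) ^ N.factorization ℓ] →
      ∃ j < oo ℓ, u ≡ g ^ j [MOD (ℓ : ℕ) ^ (N.factorization ℓ - n)]) ∧
    (∀ b : ℕ, 1 ≤ b → b ≤ N.factorization ℓ → ((ℓ : ℕ) = 2 → 2 ≤ b) → ∀ i < oo ℓ, ∀ j < oo ℓ,
      g ^ i ≡ g ^ j [MOD (ℓ : ℕ) ^ b] → i = j) := fun ℓ =>
    hTEI ℓ (N.factorization ℓ) (hLp ℓ ℓ.2) (by have := hlt ℓ ℓ.2; omega)
  choose g hg1 hg2 hg3 hg4 hg5 using hex
  set b : ℕ → ℕ := fun ℓ => ℓ ^ (N.factorization ℓ - Q.factorization ℓ) with hb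
  have hbN : ∀ ℓ : ℕ, b ℓ ∣ N := fun ℓ =>
    (pow_dvd_pow ℓ (Nat.sub_le _ _)).trans (Nat.ordProj_dvd N ℓ)
  have hinj : ∀ ℓ : L, ∀ i < oo ℓ, ∀ j < oo ℓ, g ℓ ^ i ≡ g ℓ ^ j [MOD b ℓ] → i = j := fun ℓ =>
    hg5 ℓ (N.factorization ℓ - Q.factorization ℓ) (by have := hlt ℓ ℓ.2; omega) (Nat.sub_le _ _)
      (htwo ℓ ℓ.2)
  -- the exponents of the units
  have hJ : ∀ u : (ZMod N)ˣ, u ^ Q = 1 → ∀ ℓ : L, ∃ j : Fin (oo ℓ),
      (u : ZMod N).val ≡ g ℓ ^ (j : ℕ) [MOD b ℓ] := by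
    intro u hu ℓ
    have hprime := hLp ℓ ℓ.2
    obtain ⟨j, hj1, hj2⟩ := hg4 ℓ (Q.factorization ℓ) Q (u : ZMod N).val (hlt ℓ ℓ.2)
      (even_iff_two_dvd.2 (dvd_trans (by norm_num) hQ4))
      (Nat.pow_succ_factorization_not_dvd hQ.ne' hprime)
      (Nat.Coprime.coprime_dvd_right (Nat.dvd_of_mem_primeFactors (hL ℓ.2)) (ZMod.val_coe_unit_coprime u))
      (by
        have h1 : ((u : ZMod N).val : ZMod N) ^ Q = 1 := by
          rw [ZMod.natCast_zmod_val, ← Units.val_pow_eq_pow_val, hu, Units.val_one]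
        have h2 : (u : ZMod N).val ^ Q ≡ 1 [MOD N] := by
          rw [← ZMod.natCast_eq_natCast_iff]
          push_cast
          exact h1
        exact h2.of_dvd (Nat.ordProj_dvd N ℓ))
    exact ⟨⟨j, hj1⟩, hj2⟩
  choose J hJ using hJ
  -- the zero index
  let j₀ : TT L ℓs := ⟨fun ℓ => ⟨0, by have := hoo2 ℓ; omega⟩, by
    have := hoo2 ℓs
    show 0 < oo ℓs / 2
    omega⟩
  have hj₀ : ∀ ℓ, (j₀.1 ℓ : ℕ) = 0 := fun ℓ => rfl
  -- the integers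
  have hext : ∀ j : TT L ℓs, ∃ x : ℕ, (∀ ℓ : L, x ≡ g ℓ ^ (j.1 ℓ : ℕ) [MOD (ℓ : ℕ) ^ N.factorization ℓ]) ∧
      ∀ ℓ ∈ N.primeFactors, ℓ ∉ L → ((ℓ ^ N.factorization ℓ : ℕ) : ℤ) ∣
        (x : ℤ) - ((X ^ (j.1 ℓs : ℕ) : ℤ[X]) %ₘ cyclotomic (oo ℓs) ℤ).coeff 0 := by
    intro j
    set z : ℤ := ((X ^ (j.1 ℓs : ℕ) : ℤ[X]) %ₘ cyclotomic (oo ℓs) ℤ).coeff 0 with hz
    obtain ⟨x, hx⟩ := exists_crt (N := N) (fun ℓ => if h : ℓ ∈ L then g ⟨ℓ, h⟩ ^ (j.1 ⟨ℓ, h⟩ : ℕ) else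
      (z % (N : ℤ)).toNat)
    refine ⟨x, fun ℓ => ?_, fun ℓ hℓ hℓL => ?_⟩
    · have h1 := hx ℓ (hL ℓ.2)
      rw [dif_pos ℓ.2] at h1
      exact h1
    · have h1 := hx ℓ hℓ
      rw [dif_neg hℓL] at h1
      have h2 : (((z % (N : ℤ)).toNat : ℕ) : ℤ) = z % (N : ℤ) :=
        Int.toNat_of_nonneg (Int.emod_nonneg _ (by exact_mod_cast hN0))
      have h3 : ((ℓ ^ N.factorization ℓ : ℕ) : ℤ) ∣ (x : ℤ) - (((z % (N : ℤ)).toNat : ℕ) : ℤ) :=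
        Nat.modEq_iff_dvd.1 h1.symm
      have h4 : ((ℓ ^ N.factorization ℓ : ℕ) : ℤ) ∣ z % (N : ℤ) - z := by
        have h5 : (N : ℤ) ∣ z % (N : ℤ) - z := by
          exact ⟨-(z / (N : ℤ)), by rw [Int.emod_def]; ring⟩
        refine dvd_trans ?_ h5
        exact_mod_cast Nat.ordProj_dvd N ℓ
      rw [h2] at h3
      have h7 := dvd_add h3 h4
      rwa [sub_add_sub_cancel] at h7
  choose t ht1 ht2 using hext
  have htb : ∀ (j : TT L ℓs) (ℓ : L), t j ≡ g ℓ ^ (j.1 ℓ : ℕ) [MOD b ℓ] := fun j ℓ =>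
    (ht1 j ℓ).of_dvd (pow_dvd_pow (ℓ : ℕ) (Nat.sub_le _ _))
  have ht0 : (t j₀ : ZMod N) = 1 := by
    have h1 : (N : ℤ) ∣ (t j₀ : ℤ) - 1 := by
      rw [dvd_iff_forall hN0]
      intro ℓ hℓ
      by_cases hℓL : ℓ ∈ L
      · have h2 := ht1 j₀ ⟨ℓ, hℓL⟩
        rw [hj₀, pow_zero] at h2
        have h3 := Nat.modEq_iff_dvd.1 h2.symm
        simpa using h3
      · have h2 := ht2 j₀ ℓ hℓ hℓL
        rw [hj₀, pow_zero] at h2
        have h3 : (1 : ℤ[X]) %ₘ cyclotomic (oo ℓs) ℤ = 1 := by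
          rw [modByMonic_eq_self_iff (cyclotomic.monic _ _), degree_one]
          rw [degree_cyclotomic]
          have h4 : 0 < (oo ℓs).totient := Nat.totient_pos.2 (by have := hoo2 ℓs; omega)
          exact_mod_cast h4
        rw [h3, coeff_one_zero] at h2
        exact h2
    have h2 : ((t j₀ : ℤ) - 1 : ZMod N) = 0 := by
      have := (CharP.intCast_eq_zero_iff (ZMod N) N ((t j₀ : ℤ) - 1)).2 h1
      push_cast at this
      exact_mod_cast this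
    have h3 := sub_eq_zero.1 h2
    exact_mod_cast h3
  -- the exponent of `1`
  have hJ1 : ∀ (h : (1 : (ZMod N)ˣ) ^ Q = 1) (ℓ : L), (J 1 h ℓ : ℕ) = 0 := by
    intro h ℓ
    have h1 := hJ 1 h ℓ
    have : Fact (1 < N) := ⟨hN1⟩
    rw [Units.val_one, ZMod.val_one] at h1
    have h2 : g ℓ ^ (J 1 h ℓ : ℕ) ≡ g ℓ ^ 0 [MOD b ℓ] := by
      rw [pow_zero]
      exact h1.symm
    exact hinj ℓ _ (J 1 h ℓ).2 0 (by have := hoo2 ℓ; omega) h2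
  -- the exponents of `-u`
  have hneg : ∀ (u : (ZMod N)ˣ) (h : u ^ Q = 1) (h' : (-u) ^ Q = 1),
      ((J u h ℓs : ℕ) < oo ℓs / 2 ↔ ¬ (J (-u) h' ℓs : ℕ) < oo ℓs / 2) := by
    intro u h h'
    have hev := Nat.two_mul_div_two_of_even (oo_even (hLp ℓs ℓs.2))
    have h1 := (ZMod.natCast_eq_natCast_iff _ _ _).2 (hJ u h ℓs)
    have h2 := (ZMod.natCast_eq_natCast_iff _ _ _).2 (hJ (-u) h' ℓs)
    rw [cast_neg_unit (hbN ℓs) u, h1] at h2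
    have h3 : ((g ℓs ^ (oo ℓs / 2) : ℕ) : ZMod (b ℓs)) = -1 := by
      have h4 := (hg2 ℓs).of_dvd (pow_dvd_pow (ℓs : ℕ) (Nat.sub_le (N.factorization ℓs) (Q.factorization ℓs)))
      have h5 := (ZMod.natCast_eq_natCast_iff _ _ _).2 h4
      push_cast at h5
      have h6 : ((g ℓs : ℕ) : ZMod (b ℓs)) ^ (oo ℓs / 2) + 1 = 0 := h5
      push_cast
      exact eq_neg_of_add_eq_zero_left h6
    have h7 : g ℓs ^ (J (-u) h' ℓs : ℕ) ≡ g ℓs ^ (oo ℓs / 2 + (J u h ℓs : ℕ)) [MOD b ℓs] := by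
      rw [← ZMod.natCast_eq_natCast_iff, ← h2, pow_add, Nat.cast_mul, h3]
      ring
    have h8 := (J u h ℓs).2
    have h9 := (J (-u) h' ℓs).2
    by_cases h10 : (J u h ℓs : ℕ) < oo ℓs / 2
    · have h11 := hinj ℓs _ h9 _ (by omega) h7
      simp only [h10, true_iff]
      omega
    · have h11 : oo ℓs / 2 + (J u h ℓs : ℕ) = oo ℓs + ((J u h ℓs : ℕ) - oo ℓs / 2) := by omega
      rw [h11, pow_add] at h7
      have h12 : g ℓs ^ oo ℓs ≡ 1 [MOD b ℓs] :=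
        (hg3 ℓs).of_dvd (pow_dvd_pow (ℓs : ℕ) (Nat.sub_le (N.factorization ℓs) (Q.factorization ℓs)))
      have h13 : g ℓs ^ (J (-u) h' ℓs : ℕ) ≡ g ℓs ^ ((J u h ℓs : ℕ) - oo ℓs / 2) [MOD b ℓs] := by
        refine h7.trans ?_
        calc g ℓs ^ oo ℓs * g ℓs ^ ((J u h ℓs : ℕ) - oo ℓs / 2) ≡ 1 * g ℓs ^ ((J u h ℓs : ℕ) - oo ℓs / 2)
              [MOD b ℓs] := h12.mul_right _
          _ = _ := one_mul _
      have h14 := hinj ℓs _ h9 _ (by omega) h13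
      simp only [h10, false_iff, not_not]
      omega
  have hQeven : Even Q := even_iff_two_dvd.2 (dvd_trans (by norm_num) hQ4)
  have hnegQ : ∀ u : (ZMod N)ˣ, u ^ Q = 1 → (-u) ^ Q = 1 := by
    intro u hu
    rw [hQeven.neg_pow, hu]
  -- the data
  set Kp : Finset (ZMod N)ˣ := univ.filter (fun u => ∃ h : u ^ Q = 1, (J u h ℓs : ℕ) < oo ℓs / 2) with hKp
  have hmem : ∀ u, u ∈ Kp ↔ ∃ h : u ^ Q = 1, (J u h ℓs : ℕ) < oo ℓs / 2 := by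
    intro u
    rw [hKp, mem_filter]
    exact ⟨fun h => h.2, fun h => ⟨mem_univ _, h⟩⟩
  let τ : (ZMod N)ˣ → TT L ℓs := fun u => if h : ∃ h : u ^ Q = 1, (J u h ℓs : ℕ) < oo ℓs / 2 then
    ⟨fun ℓ => J u h.1 ℓ, h.2⟩ else j₀
  have hτ : ∀ u (h : ∃ h : u ^ Q = 1, (J u h ℓs : ℕ) < oo ℓs / 2) (ℓ : L), (τ u).1 ℓ = J u h.1 ℓ := by
    intro u h ℓ
    simp only [τ, dif_pos h]
  have hmem1 : (1 : (ZMod N)ˣ) ∈ Kp := by
    rw [hmem]
    refine ⟨one_pow _, ?_⟩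
    rw [hJ1]
    have := hoo2 ℓs
    omega
  have hτ1 : τ 1 = j₀ := by
    apply Subtype.ext
    funext ℓ
    apply Fin.ext
    rw [hτ 1 ((hmem 1).1 hmem1), hJ1]
  let c : (ZMod N)ˣ → ℕ := fun u => (((u : ZMod N).val + (N - 1) * t (τ u)) / MM N Q L) % R₀ N Q L
  have hc : ∀ v ∈ Kp, ((t (τ v) + MM N Q L * c v : ℕ) : ZMod N) = v := by
    intro v hv
    obtain ⟨hv1, hv2⟩ := (hmem v).1 hv
    have hdiv : MM N Q L ∣ (v : ZMod N).val + (N - 1) * t (τ v) := by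
      have h1 : (MM N Q L : ℤ) ∣ (((v : ZMod N).val + (N - 1) * t (τ v) : ℕ) : ℤ) := by
        rw [MM_dvd_iff hLp]
        intro ℓ hℓ
        have h2 := hJ v hv1 ⟨ℓ, hℓ⟩
        have h3 := htb (τ v) ⟨ℓ, hℓ⟩
        rw [hτ v ⟨hv1, hv2⟩] at h3
        have h4 : (((v : ZMod N).val + (N - 1) * t (τ v) : ℕ) : ZMod (b ℓ)) = 0 := by
          have h5 := (ZMod.natCast_eq_natCast_iff _ _ _).2 h2
          have h6 := (ZMod.natCast_eq_natCast_iff _ _ _).2 h3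
          have h7 : ((N : ℕ) : ZMod (b ℓ)) = 0 := (CharP.cast_eq_zero_iff (ZMod (b ℓ)) (b ℓ) N).2 (hbN ℓ)
          have h8 : (((N - 1 : ℕ)) : ZMod (b ℓ)) = -1 := by
            rw [Nat.cast_sub (by omega), h7]
            simp
          rw [Nat.cast_add, Nat.cast_mul, h5, h6, h8]
          ring
        have h5 : (((v : ZMod N).val + (N - 1) * t (τ v) : ℕ)) ≡ 0 [MOD b ℓ] := by
          rw [← ZMod.natCast_eq_natCast_iff, h4, Nat.cast_zero]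
        exact_mod_cast (Nat.modEq_zero_iff_dvd.1 h5)
      exact_mod_cast h1
    have h1 : MM N Q L * c v ≡ MM N Q L * (((v : ZMod N).val + (N - 1) * t (τ v)) / MM N Q L) [MOD N] := by
      have h2 := Nat.ModEq.mul_left' (MM N Q L)
        (Nat.mod_modEq (((v : ZMod N).val + (N - 1) * t (τ v)) / MM N Q L) (R₀ N Q L))
      rw [mul_comm (MM N Q L) (R₀ N Q L), ← hNeq] at h2
      exact h2
    rw [Nat.mul_div_cancel' hdiv] at h1
    have h2 := (ZMod.natCast_eq_natCast_iff _ _ _).2 h1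
    rw [Nat.cast_add, h2, Nat.cast_add, Nat.cast_mul, Nat.cast_sub (by omega), ZMod.natCast_self,
      ZMod.natCast_zmod_val]
    push_cast
    ring
  have hczero : ∀ v ∈ Kp, τ v = τ 1 → R₀ N Q L ∣ c v → c v = 0 ∧ v = 1 := by
    intro v hv hτv hd
    have h1 : c v = 0 := by
      have h2 : c v < R₀ N Q L := Nat.mod_lt _ hR0
      exact Nat.eq_zero_of_dvd_of_lt hd h2
    refine ⟨h1, ?_⟩
    have h2 := hc v hv
    rw [h1, mul_zero, add_zero, hτv, hτ1, ht0] at h2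
    exact Units.ext h2.symm
  have hc1 : c 1 = 0 := by
    have h2 := hc 1 hmem1
    rw [hτ1, Nat.cast_add, ht0, Units.val_one, add_eq_left] at h2
    have h3 : N ∣ MM N Q L * c 1 := (CharP.cast_eq_zero_iff (ZMod N) N _).1 h2
    have h4 : R₀ N Q L ∣ c 1 := by
      have h5 : MM N Q L * R₀ N Q L ∣ MM N Q L * c 1 := by
        rw [mul_comm (MM N Q L) (R₀ N Q L), ← hNeq]
        exact h3
      exact Nat.dvd_of_mul_dvd_mul_left hM0 h5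
    exact (hczero 1 hmem1 rfl h4).1
  refine ⟨TT L ℓs, inferInstance, inferInstance, (L → ℚ[X]), inferInstance, inferInstance, t, th L ℓs, Kp, τ, c,
    hNeq, ?_, ?_, ?_, hmem1, hc1, ?_, hc, ?_, ?_⟩
  · -- (A)
    intro a ha
    rw [dvd_iff_forall hN0]
    intro ℓ hℓ
    by_cases hℓL : ℓ ∈ L
    · have h1 := (th_zero_iff L ℓs a).1 ha ⟨ℓ, hℓL⟩
      obtain ⟨P, hP⟩ := h1
      have h2 := congrArg (aeval (g ⟨ℓ, hℓL⟩ : ZMod (ℓ ^ N.factorization ℓ))) hP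
      rw [map_mul, hg1 ⟨ℓ, hℓL⟩, zero_mul, EE_aeval] at h2
      apply (CharP.intCast_eq_zero_iff (ZMod (ℓ ^ N.factorization ℓ)) (ℓ ^ N.factorization ℓ) _).1
      push_cast
      rw [← h2]
      refine Finset.sum_congr rfl fun j _ => ?_
      congr 1
      have h3 := (ZMod.natCast_eq_natCast_iff _ _ _).2 (ht1 j ⟨ℓ, hℓL⟩)
      push_cast at h3
      exact h3
    · have h1 := coeff_zero_of L ℓs ha
      have h2 : ∑ i, a i * (t i : ℤ) = ∑ i, a i * ((t i : ℤ) -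
          ((X ^ (i.1 ℓs : ℕ) : ℤ[X]) %ₘ cyclotomic (oo ℓs) ℤ).coeff 0) := by
        simp only [mul_sub, Finset.sum_sub_distrib]
        rw [h1, sub_zero]
      rw [h2]
      exact Finset.dvd_sum fun i _ => Dvd.dvd.mul_left (ht2 i ℓ hℓ hℓL) _
  · -- (B)
    intro a ha hdiv
    rw [th_zero_iff]
    intro ℓ
    have h1 := (MM_dvd_iff hLp _).1 hdiv ℓ ℓ.2
    refine hNRM (oo ℓ) (b ℓ) (m * R₀ N Q L * ∏ ℓ ∈ L, oo ℓ) (g ℓ : ZMod (b ℓ)) (EE L ℓs ℓ a)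
      (by have := hoo2 ℓ; omega) ?_ ?_ ?_ ?_
    · exact aeval_castHom (pow_dvd_pow (ℓ : ℕ) (Nat.sub_le _ _)) (g ℓ) _ (hg1 ℓ)
    · rw [EE_aeval]
      have h2 := (CharP.intCast_eq_zero_iff (ZMod (b ℓ)) (b ℓ) _).2 h1
      push_cast at h2
      rw [← h2]
      refine Finset.sum_congr rfl fun j _ => ?_
      congr 1
      have h3 := (ZMod.natCast_eq_natCast_iff _ _ _).2 (htb j ℓ)
      push_cast at h3
      exact h3.symm
    · refine (EE_size L ℓs ℓ a ha).trans ?_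
      have h2 := card_TT_le L ℓs
      exact_mod_cast Nat.mul_le_mul_left _ h2
    · have h2 := hsize ℓ ℓ.2
      have h3 : (ℓ : ℕ) ^ N.factorization ℓ = b ℓ * (ℓ : ℕ) ^ Q.factorization ℓ := by
        simp only [hb]
        rw [← pow_add, Nat.sub_add_cancel (hlt ℓ ℓ.2).le]
      rw [h3] at h2
      exact lt_of_mul_lt_mul_right h2 (Nat.zero_le _)
  · -- (C)
    intro i hi
    rw [hτ1] at hi ⊢
    exact th_not_mem L ℓs hLp hj₀ hi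
  · intro v hv hτv hne hd
    exact hne (hczero v hv hτv hd).2
  · intro u hu
    obtain ⟨h1, _⟩ := (hmem u).1 hu
    exact h1
  · intro u hu
    rw [hmem, hmem]
    constructor
    · rintro ⟨h1, h2⟩ ⟨h3, h4⟩
      exact (hneg u h1 h3).1 h2 h4
    · intro h
      refine ⟨hu, (hneg u hu (hnegQ u hu)).2 fun h4 => h ⟨hnegQ u hu, h4⟩⟩

end Pool.Agent.P8H3.EF
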