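import Pool.Agent.P8H3.EF.Stm
import Pool.Agent.Y18.GX.Trace

/-!
# The relations over the roots of unity
-/

set_option autoImplicit false

namespace Pool.Agent.P8H3.EF

open Finset

/-- the radical -/
def rad (N : ℕ) : ℕ := ∏ ℓ ∈ N.primeFactors, ℓ

lemma rad_pos (N : ℕ) : 0 < rad N := Finset.prod_pos fun _ hℓ => (Nat.prime_of_mem_primeFactors hℓ).pos

lemma dvd_rad {N ℓ : ℕ} (hN : N ≠ 0) (hℓ : ℓ.Prime) : ℓ ∣ rad N ↔ ℓ ∣ N := by
  unfold rad
  rw [hℓ.prime.dvd_finsetProd_iff]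
  constructor
  · rintro ⟨a, ha, h⟩
    rw [(Nat.prime_dvd_prime_iff_eq hℓ (Nat.prime_of_mem_primeFactors ha)).1 h]
    exact Nat.dvd_of_mem_primeFactors ha
  · intro h
    exact ⟨ℓ, Nat.mem_primeFactors.2 ⟨hℓ, h, hN⟩, dvd_rfl⟩

lemma dvd_rad_pow {N : ℕ} (hN : N ≠ 0) : N ∣ rad N ^ (N + 1) := by
  have hr := rad_pos N
  rw [← Nat.factorization_le_iff_dvd hN (pow_ne_zero _ hr.ne')]
  intro ℓ
  by_cases hℓ : ℓ ∈ N.primeFactors
  · rw [Nat.factorization_pow]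
    have h1 : N.factorization ℓ < N := Nat.factorization_lt ℓ hN
    have h2 : 1 ≤ (rad N).factorization ℓ := by
      have h3 := Nat.prime_of_mem_primeFactors hℓ
      rw [← Nat.Prime.dvd_iff_one_le_factorization h3 hr.ne', dvd_rad hN h3]
      exact Nat.dvd_of_mem_primeFactors hℓ
    simp only [Finsupp.coe_smul, Pi.smul_apply, smul_eq_mul]
    calc N.factorization ℓ ≤ (N + 1) * 1 := by omega
      _ ≤ (N + 1) * (rad N).factorization ℓ := Nat.mul_le_mul_left _ h2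
  · have h1 : N.factorization ℓ = 0 := by
      rw [← Finsupp.notMem_support_iff]
      exact hℓ
    rw [h1]
    exact Nat.zero_le _

section
variable {N Q : ℕ} [NeZero N]

/-- the powers of a unit are `1` modulo the primes -/
lemma pow_modEq_one {ℓ : ℕ} (hℓ : ℓ.Prime) (hℓN : ℓ ∣ N) (hQ : ℓ - 1 ∣ Q) (u : (ZMod N)ˣ) :
    ((u ^ Q : (ZMod N)ˣ) : ZMod N).val ≡ 1 [MOD ℓ] := by
  have : Fact ℓ.Prime := ⟨hℓ⟩
  rw [← ZMod.natCast_eq_natCast_iff, ZMod.natCast_val, ← ZMod.castHom_apply (h := hℓN)]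
  obtain ⟨c, hc⟩ := hQ
  have h1 : ZMod.castHom hℓN (ZMod ℓ) (u : ZMod N) ≠ 0 := (u.isUnit.map (ZMod.castHom hℓN (ZMod ℓ))).ne_zero
  rw [Units.val_pow_eq_pow_val, map_pow, hc, pow_mul, ZMod.pow_card_sub_one_eq_one h1, one_pow, Nat.cast_one]

lemma pow_modEq_one_four (h4 : 4 ∣ N) (hQ : 4 ∣ Q) (u : (ZMod N)ˣ) :
    ((u ^ Q : (ZMod N)ˣ) : ZMod N).val ≡ 1 [MOD 4] := by
  rw [← ZMod.natCast_eq_natCast_iff, ZMod.natCast_val, ← ZMod.castHom_apply (h := h4)]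
  obtain ⟨c, hc⟩ := hQ
  have h1 : IsUnit (ZMod.castHom h4 (ZMod 4) (u : ZMod N)) := u.isUnit.map (ZMod.castHom h4 (ZMod 4))
  rw [Units.val_pow_eq_pow_val, map_pow, hc, pow_mul]
  generalize ZMod.castHom h4 (ZMod 4) (u : ZMod N) = x at h1
  have h2 : x ^ 4 = 1 := by
    revert h1
    revert x
    decide
  rw [h2, one_pow, Nat.cast_one]

/-- the powers of a unit vanish eventually -/
lemma pow_rad (hN : N ≠ 0) (hQ : ∀ ℓ ∈ N.primeFactors, ℓ - 1 ∣ Q) (u : (ZMod N)ˣ) :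
    u ^ (Q * rad N ^ N) = 1 := by
  set w := u ^ Q with hw
  rw [pow_mul, ← hw]
  have h1 : ((rad N : ℕ) : ℤ) ∣ (((w : ZMod N).val : ℕ) : ℤ) - 1 := by
    unfold rad
    push_cast
    apply Finset.prod_dvd_of_coprime
    · intro a ha b hb hab
      have ha' := Nat.prime_of_mem_primeFactors ha
      have hb' := Nat.prime_of_mem_primeFactors hb
      exact Nat.isCoprime_iff_coprime.2 ((Nat.coprime_primes ha' hb').2 hab)
    · intro ℓ hℓ
      have h2 := pow_modEq_one (Nat.prime_of_mem_primeFactors hℓ) (Nat.dvd_of_mem_primeFactors hℓ) (hQ ℓ hℓ) u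
      have h3 := Nat.modEq_iff_dvd.1 h2.symm
      push_cast at h3 ⊢
      exact h3
  have h2 := dvd_sub_pow_of_dvd_sub h1 N
  rw [one_pow] at h2
  have h3 : (N : ℤ) ∣ (((w : ZMod N).val : ℕ) : ℤ) ^ rad N ^ N - 1 := by
    refine dvd_trans ?_ h2
    exact_mod_cast dvd_rad_pow hN
  have h4 := (CharP.intCast_eq_zero_iff (ZMod N) N _).2 h3
  push_cast at h4
  rw [ZMod.natCast_zmod_val, sub_eq_zero] at h4
  apply Units.ext
  rw [Units.val_pow_eq_pow_val, h4, Units.val_one]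

end

/-- REL1 -/
theorem rel1 (hTR : S_TR) (hKER : S_KER) {k : Type} [Field k] {p : ℕ} [Fact p.Prime] [CharP k p] {g N : ℕ}
    [NeZero N] (hpN : ¬ p ∣ N) (h4 : 4 ∣ p ^ g - 1)
    (hℓ : ∀ ℓ ∈ N.primeFactors, ℓ ∣ p ^ g - 1 ∧ ℓ - 1 ∣ p ^ g - 1)
    (χ : DirichletCharacter k N) (hχ : χ.IsPrimitive) (h : (ZMod N)ˣ → k)
    (hsum : ∀ j, ∑ x : (ZMod N)ˣ, χ x ^ (p ^ g) ^ j * h x = 0) (y : (ZMod N)ˣ) :
    ∑ u ∈ univ.filter (fun u : (ZMod N)ˣ => u ^ (p ^ g - 1) = 1), χ u * h (u * y) = 0 := by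
  classical
  have hp := (Fact.out : p.Prime)
  have hN : N ≠ 0 := NeZero.ne N
  set q := p ^ g with hq
  have hq1 : 1 ≤ q := Nat.one_le_pow _ _ hp.pos
  set J := rad N ^ N with hJ
  have hJk : (J : k) ≠ 0 := by
    intro h0
    have h1 := (CharP.cast_eq_zero_iff k p J).1 h0
    exact hpN ((dvd_rad hN hp).1 (hp.dvd_of_dvd_pow h1))
  have hT : ∀ u : (ZMod N)ˣ, ∑ j ∈ range J, χ u ^ q ^ j = if u ^ (q - 1) = 1 then (J : k) * χ u else 0 := by
    intro u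
    split_ifs with hu
    · apply Pool.Agent.Y18.GX.trace_one _ hq1
      rw [← map_pow, ← Units.val_pow_eq_pow_val, hu, Units.val_one, map_one]
    · refine hTR k p g q (rad N) N (χ u) hq (rad_pos N) ?_ ?_ ?_ ?_ ?_
      · intro ℓ hℓp hℓr
        exact (hℓ ℓ (Nat.mem_primeFactors.2 ⟨hℓp, (dvd_rad hN hℓp).1 hℓr, hN⟩)).1
      · intro _
        exact h4
      · exact (u.isUnit.map χ).ne_zero
      · intro h1
        apply hu
        refine hKER N k χ hχ (u ^ (q - 1)) ?_ ?_ ?_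
        · intro ℓ hℓp hℓN
          exact pow_modEq_one hℓp hℓN (hℓ ℓ (Nat.mem_primeFactors.2 ⟨hℓp, hℓN, hN⟩)).2 u
        · intro h4N
          exact pow_modEq_one_four h4N h4 u
        · rw [Units.val_pow_eq_pow_val, map_pow]
          exact h1
      · have h1 := pow_rad hN (fun ℓ hℓ' => (hℓ ℓ hℓ').2) u
        rw [← map_pow, ← Units.val_pow_eq_pow_val, h1, Units.val_one, map_one]
  have h1 : ∑ x : (ZMod N)ˣ, (∑ j ∈ range J, χ ((x * y⁻¹ : (ZMod N)ˣ) : ZMod N) ^ q ^ j) * h x = 0 := by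
    have h2 : ∀ x : (ZMod N)ˣ, (∑ j ∈ range J, χ ((x * y⁻¹ : (ZMod N)ˣ) : ZMod N) ^ q ^ j) * h x =
        ∑ j ∈ range J, χ ((y⁻¹ : (ZMod N)ˣ) : ZMod N) ^ q ^ j * (χ x ^ q ^ j * h x) := by
      intro x
      rw [Finset.sum_mul]
      refine Finset.sum_congr rfl fun j _ => ?_
      rw [Units.val_mul, map_mul, mul_pow]
      ring
    simp only [h2]
    rw [Finset.sum_comm]
    refine Finset.sum_eq_zero fun j _ => ?_
    rw [← Finset.mul_sum, hsum, mul_zero]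
  have h2 : ∑ x : (ZMod N)ˣ, (∑ j ∈ range J, χ ((x * y⁻¹ : (ZMod N)ˣ) : ZMod N) ^ q ^ j) * h x =
      ∑ u : (ZMod N)ˣ, if u ^ (q - 1) = 1 then (J : k) * (χ u * h (u * y)) else 0 := by
    symm
    refine Fintype.sum_equiv (Equiv.mulRight y) _ _ (fun u => ?_)
    rw [Equiv.coe_mulRight, mul_inv_cancel_right, hT]
    split_ifs
    · ring
    · rw [zero_mul]
  rw [h2, ← Finset.sum_filter, ← Finset.mul_sum] at h1
  exact (mul_eq_zero.1 h1).resolve_left hJk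

end Pool.Agent.P8H3.EF
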