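import Mathlib

/-!
# Statements of the parts of the effective Friedman theorem (project EF)
-/

set_option autoImplicit false

namespace Pool.Agent.P8H3.EF

open Finset Polynomial

/-- TR: the trace of a root of unity `z` over the field with `q` elements vanishes if `z` is not in this field and
the order of `z ^ (q - 1)` is composed of primes dividing `q - 1` (and `4 ∣ q - 1` if it is even). -/
def S_TR : Prop :=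
  ∀ (k : Type) [Field k] (p : ℕ) [Fact p.Prime] [CharP k p] (g q Λ R : ℕ) (z : k),
    q = p ^ g → 0 < Λ → (∀ ℓ : ℕ, ℓ.Prime → ℓ ∣ Λ → ℓ ∣ q - 1) → (2 ∣ Λ → 4 ∣ q - 1) → z ≠ 0 →
    z ^ (q - 1) ≠ 1 → z ^ ((q - 1) * Λ ^ R) = 1 → ∑ j ∈ range (Λ ^ R), z ^ q ^ j = 0

/-- KER: a primitive character is injective on the residues which are `1` modulo all primes dividing `N` (and modulo
`4` if `4 ∣ N`). -/
def S_KER : Prop :=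
  ∀ (N : ℕ) [NeZero N] (A : Type) [CommRing A] (χ : DirichletCharacter A N), χ.IsPrimitive →
    ∀ w : (ZMod N)ˣ, (∀ ℓ : ℕ, ℓ.Prime → ℓ ∣ N → (w : ZMod N).val ≡ 1 [MOD ℓ]) →
      (4 ∣ N → (w : ZMod N).val ≡ 1 [MOD 4]) → χ w = 1 → w = 1

/-- FT: the Fourier transform of a polynomial on `{0, …, N-1}` is a rational function with a pole of the exact
order `m` at `1`. -/
def S_FT : Prop :=
  ∀ (k : Type) [Field k] (p : ℕ) [Fact p.Prime] [CharP k p] (N m : ℕ) (G : k[X]), (N : k) ≠ 0 → 1 ≤ m → m < p →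
    G.natDegree = m → ∃ P : k[X], P.natDegree ≤ m ∧ P.eval 1 ≠ 0 ∧
      ∀ z : k, z ^ N = 1 → z ≠ 1 → (z - 1) ^ m * ∑ a ∈ range N, G.eval (a : k) * z ^ a = P.eval z

/-- GS: Gauss sums. -/
def S_GS : Prop :=
  ∀ (k : Type) [Field k] (N : ℕ) [NeZero N] (ζ : k) (χ : DirichletCharacter k N) (f : ZMod N → k),
    IsPrimitiveRoot ζ N → (N : k) ≠ 0 → χ.IsPrimitive → ∑ a, χ a * f a = 0 →
      ∑ b, χ⁻¹ b * ∑ a, f a * ζ ^ (a * b).val = 0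

/-- NRM: a polynomial with small coefficients which vanishes modulo `Q` at a root of the cyclotomic polynomial modulo
`Q` is divisible by the cyclotomic polynomial (resultant). -/
def S_NRM : Prop :=
  ∀ (o Q H : ℕ) (x : ZMod Q) (g : ℤ[X]), 0 < o → aeval x (cyclotomic o ℤ) = 0 → aeval x g = 0 →
    ∑ i ∈ g.support, |g.coeff i| ≤ (H : ℤ) → H ^ o.totient < Q → cyclotomic o ℤ ∣ g

/-- CORE: the elimination. -/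
def S_CORE : Prop :=
  ∀ (k : Type) [Field k] (N R₀ M m : ℕ) (ζ : k) (T K : Type) [Fintype T] [DecidableEq T] [Fintype K] (V : Type)
    [AddCommGroup V] [Module ℚ V] (t : T → ℕ) (θ : T → V) (τ : K → T) (c : K → ℕ) (κ : K → k) (P : k[X]) (u₀ : K),
    N = R₀ * M → 0 < N → IsPrimitiveRoot ζ N → (N : k) ≠ 0 → 1 ≤ m → P.natDegree ≤ m → P.eval 1 ≠ 0 →
    -- (A)
    (∀ a : T → ℤ, ∑ i, a i • θ i = 0 → (N : ℤ) ∣ ∑ i, a i * (t i : ℤ)) →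
    -- (B)
    (∀ a : T → ℤ, (∀ i, |a i| ≤ ((m * R₀ : ℕ) : ℤ)) → (M : ℤ) ∣ ∑ i, a i * (t i : ℤ) → ∑ i, a i • θ i = 0) →
    -- (C)
    (∀ i, i ≠ τ u₀ → θ i ∉ Submodule.span ℚ {θ (τ u₀)}) →
    c u₀ = 0 → κ u₀ ≠ 0 → (∀ v, τ v = τ u₀ → v ≠ u₀ → ¬ R₀ ∣ c v) →
    -- (D)
    (∀ v s, ζ ^ ((t (τ v) + M * c v) * (1 + R₀ * s)) ≠ 1) →
    (∀ s : ℕ, ∑ v, κ v * (P.eval (ζ ^ ((t (τ v) + M * c v) * (1 + R₀ * s))) /
      (ζ ^ ((t (τ v) + M * c v) * (1 + R₀ * s)) - 1) ^ m) = 0) →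
    False

/-- the number of the roots of unity in `ℤ_ℓ` -/
def oo (ℓ : ℕ) : ℕ := if ℓ = 2 then 2 else ℓ - 1

/-- TEI: roots of unity modulo `ℓ ^ a`. -/
def S_TEI : Prop :=
  ∀ (ℓ a : ℕ), ℓ.Prime → 1 ≤ a → ∃ g : ℕ, aeval (g : ZMod (ℓ ^ a)) (cyclotomic (oo ℓ) ℤ) = 0 ∧
    g ^ (oo ℓ / 2) + 1 ≡ 0 [MOD ℓ ^ a] ∧ g ^ oo ℓ ≡ 1 [MOD ℓ ^ a] ∧
    (∀ n e u : ℕ, n < a → Even e → ¬ ℓ ^ (n + 1) ∣ e → u.Coprime ℓ → u ^ e ≡ 1 [MOD ℓ ^ a] →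
      ∃ j < oo ℓ, u ≡ g ^ j [MOD ℓ ^ (a - n)]) ∧
    (∀ b : ℕ, 1 ≤ b → b ≤ a → (ℓ = 2 → 2 ≤ b) → ∀ i < oo ℓ, ∀ j < oo ℓ, g ^ i ≡ g ^ j [MOD ℓ ^ b] → i = j)

/-- the part of `N` prime to the primes of `L` -/
def N₀ (N : ℕ) (L : Finset ℕ) : ℕ := ∏ ℓ ∈ N.primeFactors \ L, ℓ ^ N.factorization ℓ

/-- `R₀` -/
def R₀ (N Q : ℕ) (L : Finset ℕ) : ℕ := N₀ N L * ∏ ℓ ∈ L, ℓ ^ Q.factorization ℓ

/-- the constant -/
def Cst (p N : ℕ) : ℕ := 4 * (∏ ℓ ∈ N.primeFactors, ℓ) ^ 3 * p ^ (1 + ∑ ℓ ∈ N.primeFactors, ℓ)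

/-- the bound -/
def bound (p N : ℕ) : ℕ := Cst p N ^ ((N.primeFactors.sup id + 1) ^ N.primeFactors.card - 1)

/-- NUM1: the valuations of `p ^ g - 1`. -/
def S_NUM1 : Prop :=
  ∀ (p N : ℕ), p.Prime → 3 ≤ p → 1 < N → ¬ p ∣ N → ¬ p ∣ N.totient →
    ∃ g : ℕ, 1 ≤ g ∧ 4 ∣ p ^ g - 1 ∧ (∀ ℓ ∈ N.primeFactors, ℓ ∣ p ^ g - 1 ∧ ℓ - 1 ∣ p ^ g - 1) ∧
      ∏ ℓ ∈ N.primeFactors, ℓ ^ (p ^ g - 1).factorization ℓ ≤
        4 * (∏ ℓ ∈ N.primeFactors, ℓ) ^ 2 * p ^ (∑ ℓ ∈ N.primeFactors, ℓ)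

/-- NUM2: the choice of the large primes. -/
def S_NUM2 : Prop :=
  ∀ (N C : ℕ), 1 < N → 1 ≤ C → C ^ ((N.primeFactors.sup id + 1) ^ N.primeFactors.card - 1) ≤ N →
    ∃ L : Finset ℕ, L.Nonempty ∧ L ⊆ N.primeFactors ∧ ∀ ℓ ∈ L, (C * N₀ N L) ^ ℓ ≤ ℓ ^ N.factorization ℓ

end Pool.Agent.P8H3.EF
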